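import Pool.Agent.W_MP_c785a0_an.Basic

set_option autoImplicit false

open Filter Topology Set
open scoped ENNReal MeasureTheory NNReal

namespace Pool.Agent.W_MP_c785a0_an

/-- the first term of the sequence -/
noncomputable def a0 : ℝ := 2 + 1 / 10 ^ 6

/-- the two real branches `x ↦ 1 / (a0 + e x)`, `e = ± 1` -/
noncomputable def hb (e x : ℝ) : ℝ := 1 / (a0 + e * x)

lemma den_bounds {e x : ℝ} (he : e = 1 ∨ e = -1) (hx : x ∈ Icc (0 : ℝ) 1) :
    1 + 1 / 10 ^ 6 ≤ a0 + e * x ∧ a0 + e * x ≤ 3 + 1 / 10 ^ 6 := by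
  obtain ⟨h0, h1⟩ := hx
  unfold a0
  rcases he with rfl | rfl
  · constructor <;> linarith
  · constructor <;> linarith

lemma hb_mem {e x : ℝ} (he : e = 1 ∨ e = -1) (hx : x ∈ Icc (0 : ℝ) 1) :
    hb e x ∈ Icc (1 / 4 : ℝ) 1 := by
  obtain ⟨h1, h2⟩ := den_bounds he hx
  unfold hb
  constructor
  · apply one_div_le_one_div_of_le
    · linarith
    · linarith
  · rw [div_le_one (by linarith)]
    linarith

lemma hb_sub {e x y : ℝ} (he : e = 1 ∨ e = -1) (hx : x ∈ Icc (0 : ℝ) 1) (hy : y ∈ Icc (0 : ℝ) 1) :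
    |hb e x - hb e y| = |x - y| / ((a0 + e * x) * (a0 + e * y)) := by
  obtain ⟨h1, h2⟩ := den_bounds he hx
  obtain ⟨h3, h4⟩ := den_bounds he hy
  have hp : 0 < a0 + e * x := by linarith
  have hq : 0 < a0 + e * y := by linarith
  unfold hb
  have : 1 / (a0 + e * x) - 1 / (a0 + e * y) = (-e) * (x - y) / ((a0 + e * x) * (a0 + e * y)) := by
    field_simp
    ring
  rw [this, abs_div, abs_mul, abs_of_pos (mul_pos hp hq), abs_neg]
  have : |e| = 1 := by rcases he with rfl | rfl <;> simp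
  rw [this, one_mul]

lemma hb_upper {e x y : ℝ} (he : e = 1 ∨ e = -1) (hx : x ∈ Icc (0 : ℝ) 1)
    (hy : y ∈ Icc (0 : ℝ) 1) :
    |hb e x - hb e y| ≤ (1 / (1 + 1 / 10 ^ 6)) * |x - y| := by
  rw [hb_sub he hx hy]
  obtain ⟨h1, h2⟩ := den_bounds he hx
  obtain ⟨h3, h4⟩ := den_bounds he hy
  rw [div_mul_eq_mul_div, one_mul]
  have h5 : (1 : ℝ) + 1 / 10 ^ 6 ≤ (a0 + e * x) * (a0 + e * y) := by nlinarith
  gcongr

lemma hb_lower {e x y : ℝ} (he : e = 1 ∨ e = -1) (hx : x ∈ Icc (0 : ℝ) 1)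
    (hy : y ∈ Icc (0 : ℝ) 1) :
    (1 / 10) * |x - y| ≤ |hb e x - hb e y| := by
  rw [hb_sub he hx hy]
  obtain ⟨h1, h2⟩ := den_bounds he hx
  obtain ⟨h3, h4⟩ := den_bounds he hy
  have h5 : (a0 + e * x) * (a0 + e * y) ≤ 10 := by nlinarith
  have h6 : 0 < (a0 + e * x) * (a0 + e * y) := by nlinarith
  rw [div_mul_eq_mul_div, one_mul]
  gcongr

/-- existence of the coding map -/
lemma exists_V {S : Type*} (next : S → S) (e : S → ℝ) (he : ∀ σ, e σ = 1 ∨ e σ = -1) :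
    ∃ V : S → ℝ, (∀ σ, V σ ∈ Icc (1 / 4 : ℝ) 1) ∧ ∀ σ, V σ = hb (e σ) (V (next σ)) := by
  let H : ℕ → S → ℝ := fun n => Nat.rec (fun _ => 1 / 2) (fun _ h σ => hb (e σ) (h (next σ))) n
  have H0 : ∀ σ, H 0 σ = 1 / 2 := fun σ => rfl
  have Hs : ∀ n σ, H (n + 1) σ = hb (e σ) (H n (next σ)) := fun n σ => rfl
  have hmem : ∀ n σ, H n σ ∈ Icc (1 / 4 : ℝ) 1 := by
    intro n
    induction n with
    | zero => intro σ; rw [H0]; constructor <;> norm_num
    | succ n ih =>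
      intro σ
      rw [Hs]
      have := ih (next σ)
      exact hb_mem (he σ) ⟨by linarith [this.1], this.2⟩
  have hmem' : ∀ n σ, H n σ ∈ Icc (0 : ℝ) 1 := fun n σ =>
    ⟨by linarith [(hmem n σ).1], (hmem n σ).2⟩
  set r : ℝ := 1 / (1 + 1 / 10 ^ 6) with hr
  have hr1 : r < 1 := by rw [hr]; norm_num
  have hr0 : 0 ≤ r := by rw [hr]; norm_num
  have hd : ∀ n σ, dist (H n σ) (H (n + 1) σ) ≤ 1 * r ^ n := by
    intro n
    induction n with
    | zero =>
      intro σ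
      have h1 := hmem' 0 σ
      have h2 := hmem' 1 σ
      rw [Real.dist_eq, abs_le]
      constructor <;> simp <;> linarith [h1.1, h1.2, h2.1, h2.2]
    | succ n ih =>
      intro σ
      rw [Hs n, Hs (n + 1), Real.dist_eq]
      refine (hb_upper (he σ) (hmem' n (next σ)) (hmem' (n + 1) (next σ))).trans ?_
      have := ih (next σ)
      rw [Real.dist_eq] at this
      calc r * |H n (next σ) - H (n + 1) (next σ)| ≤ r * (1 * r ^ n) := by gcongr
        _ = 1 * r ^ (n + 1) := by ring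
  have hc : ∀ σ, CauchySeq (fun n => H n σ) := fun σ =>
    cauchySeq_of_le_geometric r 1 hr1 (fun n => hd n σ)
  choose V hV using fun σ => cauchySeq_tendsto_of_complete (hc σ)
  have hVm : ∀ σ, V σ ∈ Icc (1 / 4 : ℝ) 1 := fun σ =>
    isClosed_Icc.mem_of_tendsto (hV σ) (Eventually.of_forall (fun n => hmem n σ))
  refine ⟨V, hVm, fun σ => ?_⟩
  have h1 : Tendsto (fun n => H (n + 1) σ) atTop (𝓝 (V σ)) := (hV σ).comp (tendsto_add_atTop_nat 1)
  have h2 : Tendsto (fun n => hb (e σ) (H n (next σ))) atTop (𝓝 (hb (e σ) (V (next σ)))) := by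
    have hne : a0 + e σ * V (next σ) ≠ 0 := by
      have := (den_bounds (he σ) (x := V (next σ)) ⟨by linarith [(hVm (next σ)).1],
        (hVm (next σ)).2⟩).1
      linarith
    unfold hb
    exact tendsto_const_nhds.div (tendsto_const_nhds.add (tendsto_const_nhds.mul (hV (next σ)))) hne
  exact tendsto_nhds_unique h1 h2

/-- chains give points of the limit set -/
lemma mem_limitSet_of_chain (v e : ℕ → ℝ) (he : ∀ k, e k = 1 ∨ e k = -1)
    (hv : ∀ k, v k ∈ Icc (0 : ℝ) 1) (h : ∀ k, v k = hb (e k) (v (k + 1))) :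
    ((v 0 : ℝ) : ℂ) ∈ limitSet (famG seqD 2) := by
  let ε : ℕ → ℝ := fun n => Nat.rec 1 (fun k x => x * e k) n
  have ε0 : ε 0 = 1 := rfl
  have εs : ∀ k, ε (k + 1) = ε k * e k := fun k => rfl
  have hε : ∀ k, ε k = 1 ∨ ε k = -1 := by
    intro k
    induction k with
    | zero => left; exact ε0
    | succ k ih =>
      rw [εs]
      rcases ih with h | h <;> rcases he k with h' | h' <;> rw [h, h'] <;> norm_num
  have hj : ∀ k, ∃ j : Fin 2, sg j = ε k := by
    intro k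
    rcases hε k with h | h
    · exact ⟨0, by rw [h]; simp [sg]⟩
    · exact ⟨1, by rw [h]; simp [sg]⟩
  choose jj hjj using hj
  let ω : ℕ → ℕ × Fin 2 := fun k => (0, jj k)
  have hω : ∀ k, rp (ω k) = ε k * a0 := by
    intro k
    have e0 : seqD 0 = a0 := by rw [seqD_zero, a0]
    simp only [rp, ω]
    rw [e0, hjj]
  have hstep : ∀ k, famG seqD 2 (ω k) ((ε (k + 1) * v (k + 1) : ℝ) : ℂ) = ((ε k * v k : ℝ) : ℂ) := by
    intro k
    rw [famG_eq, hω, h k, hb, εs]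
    rw [← Complex.ofReal_add]
    rw [show (1 : ℂ) = ((1 : ℝ) : ℂ) by simp, ← Complex.ofReal_div]
    congr 1
    have hden := (den_bounds (he k) (hv (k + 1))).1
    have hne : a0 + e k * v (k + 1) ≠ 0 := by linarith
    have e1 : ε k * e k * v (k + 1) + ε k * a0 = ε k * (a0 + e k * v (k + 1)) := by ring
    rw [e1]
    rcases hε k with h' | h'
    · rw [h']; field_simp
    · rw [h']; field_simp
  have hword : ∀ N k, wordMap (famG seqD 2) N (fun i => ω (k + i))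
      ((ε (k + N) * v (k + N) : ℝ) : ℂ) = ((ε k * v k : ℝ) : ℂ) := by
    intro N
    induction N with
    | zero => intro k; simp [wordMap]
    | succ N ih =>
      intro k
      have h1 := ih (k + 1)
      simp only [wordMap]
      have e1 : (fun i : Fin N => ω (k + ((i.succ : Fin (N + 1)) : ℕ))) =
          fun i : Fin N => ω (k + 1 + i) := by
        funext i
        congr 1
        rw [Fin.val_succ]; ring
      have e2 : k + (N + 1) = k + 1 + N := by ring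
      rw [e1, e2, h1]
      have := hstep k
      simpa using this
  refine ⟨ω, fun N => ?_⟩
  refine ⟨((ε N * v N : ℝ) : ℂ), ?_, ?_⟩
  · rw [mem_closedBall_zero_iff, Complex.norm_real, Real.norm_eq_abs, abs_mul]
    have h1 : |ε N| = 1 := by rcases hε N with h | h <;> rw [h] <;> simp
    rw [h1, one_mul, abs_of_nonneg (hv N).1]
    exact (hv N).2
  · have := hword N 0
    simp only [Nat.zero_add, ε0, one_mul] at this
    exact this

/-! ### the digits -/

/-- weights (times `10 ^ 4`) -/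
def cl : List ℕ := [2356, 1261, 819, 593, 459, 370, 308, 262, 228, 200, 178, 160, 145, 132, 121,
  112, 104, 97, 90, 85, 80, 75, 71, 67, 64, 61, 58, 55, 53, 51, 49, 47, 45, 43, 42, 40, 39, 38, 36,
  35, 34, 33, 32, 31, 30, 29, 29, 28, 27, 26, 26, 25, 24, 24, 23, 23, 22, 22, 21, 21, 20, 20, 20,
  19, 19, 18, 18, 18, 17, 17, 17, 16, 16, 16, 16, 15, 15, 15, 15, 14]

/-- weight of the digit `k` -/
def cw (k : ℕ) : ℕ := cl.getD k 0

/-- partial sums -/
def Pw (k : ℕ) : ℕ := ∑ j ∈ Finset.range k, cw j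

lemma Pw_succ (k : ℕ) : Pw (k + 1) = Pw k + cw k := Finset.sum_range_succ _ _

lemma Pw_80 : Pw 80 = 10000 := by decide +kernel

lemma cw_pos : ∀ k < 80, 0 < cw k := by decide +kernel

lemma cw_le : ∀ k < 80, cw k ≤ 2356 := by decide +kernel

lemma cw_pow : ∀ k < 80, cw k ^ 25 * (302 + 202 * k) ^ 32 ≤ 10 ^ 100 * 100 ^ 32 := by decide +kernel

/-- the first digit -/
noncomputable def dg (x : ℝ) : ℕ := by
  classical exact Nat.findGreatest (fun i => (Pw i : ℝ) ≤ 10000 * x) 79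

lemma dg_le (x : ℝ) : dg x ≤ 79 := Nat.findGreatest_le _

lemma dg_spec {x : ℝ} (hx : x ∈ Ico (0 : ℝ) 1) :
    (Pw (dg x) : ℝ) ≤ 10000 * x ∧ 10000 * x < Pw (dg x + 1) := by
  classical
  have h0 : (Pw 0 : ℝ) ≤ 10000 * x := by simp [Pw]; exact hx.1
  constructor
  · exact Nat.findGreatest_spec (P := fun i => (Pw i : ℝ) ≤ 10000 * x) (n := 79) (Nat.zero_le _) h0
  · rcases Nat.lt_or_ge (dg x) 79 with h | h
    · by_contra hcon
      push Not at hcon
      have h1 : dg x + 1 ≤ dg x := Nat.le_findGreatest (P := fun i => (Pw i : ℝ) ≤ 10000 * x)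
        (n := 79) (by omega) hcon
      omega
    · have h1 : dg x = 79 := le_antisymm (dg_le x) h
      rw [h1, Pw_80]
      have := hx.2
      push_cast; linarith

/-- the expanding map -/
noncomputable def Tm (x : ℝ) : ℝ := (10000 * x - Pw (dg x)) / cw (dg x)

lemma cw_dg_pos (x : ℝ) : (0 : ℝ) < cw (dg x) := by
  exact_mod_cast cw_pos _ (by have := dg_le x; omega)

lemma Tm_mem {x : ℝ} (hx : x ∈ Ico (0 : ℝ) 1) : Tm x ∈ Ico (0 : ℝ) 1 := by
  obtain ⟨h1, h2⟩ := dg_spec hx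
  have h3 := cw_dg_pos x
  rw [Pw_succ] at h2
  push_cast at h2
  unfold Tm
  constructor
  · apply div_nonneg <;> linarith
  · rw [div_lt_one h3]; linarith

lemma Tm_sub {x y : ℝ} (h : dg x = dg y) : x - y = (cw (dg x) : ℝ) / 10000 * (Tm x - Tm y) := by
  have h3 := cw_dg_pos x
  unfold Tm
  rw [← h]
  field_simp
  ring

/-- state space dynamics -/
noncomputable def nx (σ : ℝ × ℕ) : ℝ × ℕ :=
  match σ.2 with
  | 0 => (Tm σ.1, dg (Tm σ.1))
  | k + 1 => (σ.1, k)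

/-- sign of a state -/
def sgn (σ : ℝ × ℕ) : ℝ :=
  match σ.2 with
  | 0 => 1
  | _ + 1 => -1

lemma sgn_cases (σ : ℝ × ℕ) : sgn σ = 1 ∨ sgn σ = -1 := by
  obtain ⟨x, k⟩ := σ
  cases k with
  | zero => left; rfl
  | succ k => right; rfl

/-- denominators -/
noncomputable def Dn (u : ℝ) : ℕ → ℝ
  | 0 => 1
  | 1 => a0 + u
  | k + 2 => a0 * Dn u (k + 1) - Dn u k

lemma Dn_mono {u : ℝ} (hu : u ∈ Icc (0 : ℝ) 1) (k : ℕ) :
    1 ≤ Dn u k ∧ Dn u k ≤ Dn u (k + 1) := by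
  induction k with
  | zero =>
    simp only [Dn]
    have := hu.1
    unfold a0
    constructor
    · norm_num
    · norm_num; linarith
  | succ k ih =>
    obtain ⟨h1, h2⟩ := ih
    refine ⟨h1.trans h2, ?_⟩
    have h3 : Dn u (k + 1 + 1) = a0 * Dn u (k + 1) - Dn u k := rfl
    rw [h3]
    unfold a0
    nlinarith

lemma Dn_bound {u : ℝ} (hu : u ∈ Icc (0 : ℝ) 1) (k : ℕ) (hk : k ≤ 80) :
    Dn u k ≤ 1 + 2.02 * k ∧ Dn u (k + 1) - Dn u k ≤ 2.00001 + 0.00017 * k := by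
  induction k with
  | zero =>
    simp only [Dn]
    have := hu.2
    unfold a0
    constructor
    · norm_num
    · norm_num; linarith
  | succ k ih =>
    obtain ⟨h1, h2⟩ := ih (by omega)
    have hk' : (k : ℝ) ≤ 79 := by
      have : k ≤ 79 := by omega
      exact_mod_cast this
    have h3 : Dn u (k + 1 + 1) = a0 * Dn u (k + 1) - Dn u k := rfl
    push_cast
    constructor
    · nlinarith
    · rw [h3]
      have h4 : Dn u (k + 1) ≤ 170 := by nlinarith
      have h5 : a0 * Dn u (k + 1) - Dn u k - Dn u (k + 1) =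
        (Dn u (k + 1) - Dn u k) + (1 / 10 ^ 6) * Dn u (k + 1) := by unfold a0; ring
      rw [h5]
      norm_num at *
      linarith

/-- the coding -/
structure Coding where
  /-- values -/
  V : ℝ × ℕ → ℝ
  mem : ∀ σ, V σ ∈ Icc (1 / 4 : ℝ) 1
  eq : ∀ σ, V σ = hb (sgn σ) (V (nx σ))

variable (c : Coding)

/-- the map `F` -/
noncomputable def Coding.F (x : ℝ) : ℝ := c.V (x, dg x)

lemma Coding.V_zero (x : ℝ) : c.V (x, 0) = 1 / (a0 + c.F (Tm x)) := by
  rw [c.eq]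
  simp [hb, sgn, nx, Coding.F]

lemma Coding.V_succ (x : ℝ) (k : ℕ) : c.V (x, k + 1) = hb (-1) (c.V (x, k)) := by
  rw [c.eq]
  simp [sgn, nx]

lemma Coding.mem' (σ : ℝ × ℕ) : c.V σ ∈ Icc (0 : ℝ) 1 :=
  ⟨by linarith [(c.mem σ).1], (c.mem σ).2⟩

lemma Coding.V_eq (x : ℝ) (k : ℕ) : c.V (x, k) = Dn (c.F (Tm x)) k / Dn (c.F (Tm x)) (k + 1) := by
  have hF : c.F (Tm x) ∈ Icc (0 : ℝ) 1 := c.mem' _
  induction k with
  | zero => rw [c.V_zero]; simp [Dn]
  | succ k ih =>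
    rw [c.V_succ, ih, hb]
    have h1 := (Dn_mono hF k).1
    have h2 := (Dn_mono hF (k + 1)).1
    have h3 := (Dn_mono hF (k + 2)).1
    have h4 : Dn (c.F (Tm x)) (k + 1 + 1) = a0 * Dn (c.F (Tm x)) (k + 1) - Dn (c.F (Tm x)) k := rfl
    set D := Dn (c.F (Tm x)) with hD
    have h5 : a0 + -1 * (D k / D (k + 1)) = D (k + 1 + 1) / D (k + 1) := by
      rw [h4]
      field_simp
      ring
    rw [h5, one_div_div]

lemma Coding.V_sub (x y : ℝ) (k : ℕ) : |c.V (x, k) - c.V (y, k)| =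
    |c.F (Tm x) - c.F (Tm y)| / (Dn (c.F (Tm x)) (k + 1) * Dn (c.F (Tm y)) (k + 1)) := by
  have hF : c.F (Tm x) ∈ Icc (0 : ℝ) 1 := c.mem' _
  have hF' : c.F (Tm y) ∈ Icc (0 : ℝ) 1 := c.mem' _
  induction k with
  | zero =>
    rw [c.V_zero, c.V_zero]
    have := hb_sub (e := 1) (Or.inl rfl) hF hF'
    simp only [hb, one_mul] at this
    rw [this]
    simp [Dn]
  | succ k ih =>
    rw [c.V_succ, c.V_succ, hb_sub (Or.inr rfl) (c.mem' _) (c.mem' _), ih]
    have h2 := (Dn_mono hF (k + 1)).1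
    have h3 := (Dn_mono hF (k + 2)).1
    have h2' := (Dn_mono hF' (k + 1)).1
    have h3' := (Dn_mono hF' (k + 2)).1
    have key : ∀ z, c.F (Tm z) ∈ Icc (0 : ℝ) 1 → a0 + -1 * c.V (z, k) =
        Dn (c.F (Tm z)) (k + 1 + 1) / Dn (c.F (Tm z)) (k + 1) := by
      intro z hz
      have h4 : Dn (c.F (Tm z)) (k + 1 + 1) = a0 * Dn (c.F (Tm z)) (k + 1) - Dn (c.F (Tm z)) k :=
        rfl
      have h5 := (Dn_mono hz (k + 1)).1
      rw [c.V_eq, h4]
      field_simp
      ring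
    rw [key x hF, key y hF']
    have p1 : 0 < Dn (c.F (Tm x)) (k + 1) := by linarith
    have p2 : 0 < Dn (c.F (Tm y)) (k + 1) := by linarith
    have p3 : 0 < Dn (c.F (Tm x)) (k + 1 + 1) := by
      have : k + 1 + 1 = k + 2 := rfl
      linarith
    have p4 : 0 < Dn (c.F (Tm y)) (k + 1 + 1) := by
      have : k + 1 + 1 = k + 2 := rfl
      linarith
    field_simp

lemma Coding.V_lower (x y : ℝ) (k : ℕ) (hk : k ≤ 79) :
    |c.F (Tm x) - c.F (Tm y)| / (1 + 2.02 * (k + 1)) ^ 2 ≤ |c.V (x, k) - c.V (y, k)| := by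
  have hF : c.F (Tm x) ∈ Icc (0 : ℝ) 1 := c.mem' _
  have hF' : c.F (Tm y) ∈ Icc (0 : ℝ) 1 := c.mem' _
  rw [c.V_sub]
  have h1 := (Dn_mono hF (k + 1)).1
  have h2 := (Dn_mono hF' (k + 1)).1
  have h3 := (Dn_bound hF (k + 1) (by omega)).1
  have h4 := (Dn_bound hF' (k + 1) (by omega)).1
  push_cast at h3 h4
  have h5 : Dn (c.F (Tm x)) (k + 1) * Dn (c.F (Tm y)) (k + 1) ≤ (1 + 2.02 * (k + 1)) ^ 2 := by
    rw [sq]
    gcongr
  gcongr

lemma Coding.sep (x y : ℝ) (m j : ℕ) :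
    (1 / 10 : ℝ) ^ (m + 1) ≤ |c.V (x, m) - c.V (y, m + j + 1)| := by
  induction m with
  | zero =>
    rw [c.V_zero, Nat.zero_add, c.V_succ, hb]
    have hF := c.mem (Tm x, dg (Tm x))
    have hV := c.mem (y, j)
    have hF' : c.F (Tm x) ∈ Icc (1 / 4 : ℝ) 1 := hF
    have h1 : 1 / (a0 + c.F (Tm x)) ≤ 1 / (a0 + 1 / 4) := by
      apply one_div_le_one_div_of_le
      · unfold a0; norm_num
      · linarith [hF'.1]
    have h2 : 1 / (a0 - 1 / 4) ≤ 1 / (a0 + -1 * c.V (y, j)) := by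
      apply one_div_le_one_div_of_le
      · unfold a0; linarith [hV.2]
      · linarith [hV.1]
    rw [abs_sub_comm]
    refine le_trans ?_ (le_abs_self _)
    have h3 : (1 / 10 : ℝ) ^ (0 + 1) ≤ 1 / (a0 - 1 / 4) - 1 / (a0 + 1 / 4) := by
      unfold a0; norm_num
    have h4 : (0 + j : ℕ) = j := Nat.zero_add j
    rw [h4]
    linarith
  | succ m ih =>
    have e : m + 1 + j + 1 = (m + j + 1) + 1 := by ring
    rw [e, c.V_succ, c.V_succ]
    refine le_trans ?_ (hb_lower (Or.inr rfl) (c.mem' _) (c.mem' _))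
    calc (1 / 10 : ℝ) ^ (m + 1 + 1) = (1 / 10) * (1 / 10) ^ (m + 1) := by ring
      _ ≤ _ := by gcongr

lemma Coding.sep' (x y : ℝ) {k l : ℕ} (hk : k ≤ 79) (hl : l ≤ 79) (h : k ≠ l) :
    (1 / 10 : ℝ) ^ 80 ≤ |c.V (x, k) - c.V (y, l)| := by
  rcases lt_or_gt_of_ne h with h | h
  · obtain ⟨j, rfl⟩ : ∃ j, l = k + j + 1 := ⟨l - k - 1, by omega⟩
    refine le_trans ?_ (c.sep x y k j)
    exact pow_le_pow_of_le_one (by norm_num) (by norm_num) (by omega)
  · obtain ⟨j, rfl⟩ : ∃ j, k = l + j + 1 := ⟨k - l - 1, by omega⟩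
    rw [abs_sub_comm]
    refine le_trans ?_ (c.sep y x l j)
    exact pow_le_pow_of_le_one (by norm_num) (by norm_num) (by omega)

/-- `p_k ≤ ρ_k ^ (16 / 25)` -/
lemma weight_le {k : ℕ} (hk : k ≤ 79) :
    (cw k : ℝ) / 10000 ≤ (1 / (1 + 2.02 * (k + 1)) ^ 2) ^ (16 / 25 : ℝ) := by
  have h := cw_pow k (by omega)
  have h1 : ((cw k : ℝ) / 10000) ^ 25 ≤ (1 / (1 + 2.02 * (k + 1)) ^ 2) ^ 16 := by
    have h2 : (cw k : ℝ) ^ 25 * (302 + 202 * k) ^ 32 ≤ 10 ^ 100 * 100 ^ 32 := by exact_mod_cast h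
    rw [div_pow, div_pow, ← pow_mul, one_pow, div_le_div_iff₀ (by positivity) (by positivity)]
    have e1 : (1 + 2.02 * ((k : ℝ) + 1)) = (302 + 202 * k) / 100 := by ring
    rw [e1, div_pow, ← mul_div_assoc, div_le_iff₀ (by positivity)]
    calc _ = (cw k : ℝ) ^ 25 * (302 + 202 * k) ^ 32 := by norm_num
      _ ≤ _ := h2
      _ = _ := by norm_num
  have h3 : (1 / (1 + 2.02 * ((k : ℝ) + 1)) ^ 2) ^ (16 / 25 : ℝ) =
      ((1 / (1 + 2.02 * ((k : ℝ) + 1)) ^ 2) ^ 16) ^ (1 / 25 : ℝ) := by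
    rw [← Real.rpow_natCast (_ : ℝ) 16, ← Real.rpow_mul (by positivity)]
    norm_num
  rw [h3]
  have h4 : (cw k : ℝ) / 10000 = (((cw k : ℝ) / 10000) ^ 25) ^ (1 / 25 : ℝ) := by
    rw [← Real.rpow_natCast (_ : ℝ) 25, ← Real.rpow_mul (by positivity)]
    norm_num
  rw [h4]
  exact Real.rpow_le_rpow (by positivity) h1 (by norm_num)

/-- the key inequality -/
lemma Coding.antiholder_aux (n : ℕ) : ∀ x ∈ Ico (0 : ℝ) 1, ∀ y ∈ Ico (0 : ℝ) 1,
    |x - y| ≤ (|c.F x - c.F y| * 10 ^ 80) ^ (16 / 25 : ℝ) ∨ |x - y| ≤ (1 / 2) ^ n := by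
  induction n with
  | zero =>
    intro x hx y hy
    right
    rw [pow_zero, abs_le]
    constructor <;> linarith [hx.1, hx.2, hy.1, hy.2]
  | succ n ih =>
    intro x hx y hy
    by_cases hd : dg x = dg y
    · have h1 := Tm_sub hd
      have hk := dg_le x
      have hcw := cw_dg_pos x
      have h2 : |x - y| = (cw (dg x) : ℝ) / 10000 * |Tm x - Tm y| := by
        rw [h1, abs_mul, abs_of_pos (by positivity)]
      rcases ih _ (Tm_mem hx) _ (Tm_mem hy) with h | h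
      · left
        have h3 : c.F y = c.V (y, dg x) := by rw [Coding.F, hd]
        have h4 := c.V_lower x y (dg x) hk
        rw [h2, h3]
        calc (cw (dg x) : ℝ) / 10000 * |Tm x - Tm y| ≤
              (1 / (1 + 2.02 * (dg x + 1)) ^ 2) ^ (16 / 25 : ℝ) *
                (|c.F (Tm x) - c.F (Tm y)| * 10 ^ 80) ^ (16 / 25 : ℝ) := by
                gcongr
                exact weight_le hk
          _ = ((1 / (1 + 2.02 * (dg x + 1)) ^ 2) *
                (|c.F (Tm x) - c.F (Tm y)| * 10 ^ 80)) ^ (16 / 25 : ℝ) := by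
                rw [← Real.mul_rpow (by positivity) (by positivity)]
          _ ≤ (|c.F x - c.V (y, dg x)| * 10 ^ 80) ^ (16 / 25 : ℝ) := by
                apply Real.rpow_le_rpow (by positivity) _ (by norm_num)
                rw [← mul_assoc]
                gcongr
                calc 1 / (1 + 2.02 * (dg x + 1 : ℝ)) ^ 2 * |c.F (Tm x) - c.F (Tm y)| =
                    |c.F (Tm x) - c.F (Tm y)| / (1 + 2.02 * (dg x + 1)) ^ 2 := by ring
                  _ ≤ _ := h4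
      · right
        rw [h2]
        have h5 : (cw (dg x) : ℝ) ≤ 2356 := by exact_mod_cast cw_le _ (by omega)
        have h6 : (cw (dg x) : ℝ) / 10000 ≤ 1 / 2 := by linarith
        calc (cw (dg x) : ℝ) / 10000 * |Tm x - Tm y| ≤ (1 / 2) * (1 / 2) ^ n := by
              gcongr
          _ = (1 / 2) ^ (n + 1) := by ring
    · left
      have h1 := c.sep' x y (dg_le x) (dg_le y) hd
      have h2 : |x - y| ≤ 1 := by
        rw [abs_le]
        constructor <;> linarith [hx.1, hx.2, hy.1, hy.2]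
      refine h2.trans ?_
      apply Real.one_le_rpow _ (by norm_num)
      have h3 : (1 / 10 : ℝ) ^ 80 * 10 ^ 80 ≤ |c.F x - c.F y| * 10 ^ 80 := by
        gcongr
        exact h1
      refine le_trans ?_ h3
      rw [← mul_pow]; norm_num

lemma Coding.antiholder {x y : ℝ} (hx : x ∈ Ico (0 : ℝ) 1) (hy : y ∈ Ico (0 : ℝ) 1) :
    |x - y| ≤ (|c.F x - c.F y| * 10 ^ 80) ^ (16 / 25 : ℝ) := by
  by_contra hcon
  have h : ∀ n : ℕ, |x - y| ≤ (1 / 2) ^ n := by
    intro n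
    rcases c.antiholder_aux n x hx y hy with h | h
    · exact absurd h hcon
    · exact h
  have h0 : |x - y| ≤ 0 := ge_of_tendsto' (tendsto_pow_atTop_nhds_zero_of_lt_one (r := (1 / 2 : ℝ))
    (by norm_num) (by norm_num)) h
  apply hcon
  refine h0.trans ?_
  positivity

lemma Coding.injOn : InjOn c.F (Ico (0 : ℝ) 1) := by
  intro x hx y hy h
  have h1 := c.antiholder hx hy
  rw [h, sub_self, abs_zero, zero_mul, Real.zero_rpow (by norm_num)] at h1
  have := abs_nonneg (x - y)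
  have h2 : |x - y| = 0 := le_antisymm h1 this
  exact sub_eq_zero.mp (abs_eq_zero.mp h2)

lemma Coding.dimH_ge : ((16 / 25 : ℝ≥0) : ℝ≥0∞) ≤ dimH (c.F '' Ico (0 : ℝ) 1) := by
  set g := Function.invFunOn c.F (Ico (0 : ℝ) 1) with hg
  have hgF : ∀ x ∈ Ico (0 : ℝ) 1, g (c.F x) = x := by
    intro x hx
    exact c.injOn.leftInvOn_invFunOn hx
  have himg : g '' (c.F '' Ico (0 : ℝ) 1) = Ico (0 : ℝ) 1 := by
    ext x
    constructor
    · rintro ⟨_, ⟨y, hy, rfl⟩, rfl⟩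
      rw [hgF y hy]; exact hy
    · intro hx
      exact ⟨c.F x, ⟨x, hx, rfl⟩, hgF x hx⟩
  have hhol : HolderOnWith (((10 : ℝ≥0) ^ 80) ^ (16 / 25 : ℝ)) (16 / 25) g (c.F '' Ico (0 : ℝ) 1) := by
    rintro _ ⟨x, hx, rfl⟩ _ ⟨y, hy, rfl⟩
    rw [hgF x hx, hgF y hy, edist_dist, edist_dist, Real.dist_eq, Real.dist_eq]
    have h := c.antiholder hx hy
    calc ENNReal.ofReal |x - y| ≤ ENNReal.ofReal ((|c.F x - c.F y| * 10 ^ 80) ^ (16 / 25 : ℝ)) :=
          ENNReal.ofReal_le_ofReal h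
      _ = (ENNReal.ofReal (|c.F x - c.F y| * 10 ^ 80)) ^ (16 / 25 : ℝ) := by
          rw [ENNReal.ofReal_rpow_of_nonneg (by positivity) (by norm_num)]
      _ = (ENNReal.ofReal (10 ^ 80)) ^ (16 / 25 : ℝ) *
          (ENNReal.ofReal (|c.F x - c.F y|)) ^ (16 / 25 : ℝ) := by
          rw [mul_comm, ENNReal.ofReal_mul (by positivity),
            ENNReal.mul_rpow_of_nonneg _ _ (by norm_num)]
      _ = _ := by
          congr 1
          rw [ENNReal.coe_rpow_of_nonneg _ (by norm_num)]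
          congr 1
          rw [ENNReal.ofReal_pow (by norm_num)]
          simp
  have h1 := hhol.dimH_image_le (by norm_num)
  rw [himg, Real.dimH_of_nonempty_interior (by
    rw [interior_Ico]; exact ⟨1 / 2, by norm_num, by norm_num⟩)] at h1
  rw [Module.finrank_self, Nat.cast_one] at h1
  rw [ENNReal.le_div_iff_mul_le (Or.inl (by simp)) (Or.inl ENNReal.coe_ne_top), one_mul] at h1
  exact h1

theorem dimH_G_ge : ((16 / 25 : ℝ≥0) : ℝ≥0∞) ≤ dimH (limitSet (famG seqD 2)) := by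
  obtain ⟨V, hV1, hV2⟩ := exists_V nx sgn sgn_cases
  let c : Coding := ⟨V, hV1, hV2⟩
  have h1 := c.dimH_ge
  have h2 : dimH ((fun x : ℝ => (x : ℂ)) '' (c.F '' Ico (0 : ℝ) 1)) = dimH (c.F '' Ico (0 : ℝ) 1) :=
    Complex.isometry_ofReal.dimH_image _
  rw [← h2] at h1
  refine h1.trans (dimH_mono ?_)
  rintro _ ⟨_, ⟨x, hx, rfl⟩, rfl⟩
  have key := mem_limitSet_of_chain (fun k => V (nx^[k] (x, dg x))) (fun k => sgn (nx^[k] (x, dg x)))
    (fun k => sgn_cases _) (fun k => c.mem' _) (fun k => by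
      rw [Function.iterate_succ_apply']
      exact hV2 _)
  exact key

end Pool.Agent.W_MP_c785a0_an
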