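import Pool.Agent.W_MP_c785a0_an.Regular

set_option autoImplicit false

open Filter Topology Set
open scoped ENNReal MeasureTheory NNReal

namespace Pool.Agent.W_MP_c785a0_an

lemma wordG_deriv_le_one (N : ℕ) (ω : Fin N → ℕ × Fin 2) {z : ℂ}
    (hz : z ∈ Metric.ball (0 : ℂ) R0) : ‖deriv (wordMap (famG seqD 2) N ω) z‖ ≤ 1 := by
  induction N with
  | zero => simp [wordMap]
  | succ N ih =>
    rw [deriv_wordMap_succ Metric.isOpen_ball famG_mapsTo famG_diff N _ hz, norm_mul]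
    have h1 := ih (fun i => ω i.succ)
    have h2 := deriv_le_one (ω 0) (wordG_mapsTo N (fun i => ω i.succ) hz)
    have h3 := cG_lt
    calc _ ≤ (1 : ℝ) * 1 := by gcongr; linarith
      _ = 1 := by norm_num

lemma wordG_deriv_pos (N : ℕ) (ω : Fin N → ℕ × Fin 2) {z : ℂ}
    (hz : z ∈ Metric.ball (0 : ℂ) R0) : 0 < ‖deriv (wordMap (famG seqD 2) N ω) z‖ := by
  induction N with
  | zero => simp [wordMap]
  | succ N ih =>
    rw [deriv_wordMap_succ Metric.isOpen_ball famG_mapsTo famG_diff N _ hz, norm_mul]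
    have h1 := ih (fun i => ω i.succ)
    have h2 : 0 < ‖deriv (famG seqD 2 (ω 0)) (wordMap (famG seqD 2) N (fun i => ω i.succ) z)‖ := by
      have hm := wordG_mapsTo N (fun i => ω i.succ) hz
      rw [mem_ball_zero_iff] at hm
      rw [norm_deriv_famG _ hm.le]
      have := R0_le' (ω 0) hm.le
      have := R0_gt
      have : 0 < ‖wordMap (famG seqD 2) N (fun i => ω i.succ) z + (rp (ω 0) : ℂ)‖ := by linarith
      positivity
    positivity

/-- real version of `lam N t 0` -/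
noncomputable def ell (N : ℕ) (t : ℝ) : ℝ :=
  ∑' ω : Fin N → ℕ × Fin 2, ‖deriv (wordMap (famG seqD 2) N ω) 0‖ ^ t

lemma summable_quarter (N : ℕ) : Summable (fun ω : Fin N → ℕ × Fin 2 =>
    ‖deriv (wordMap (famG seqD 2) N ω) 0‖ ^ (1 / 4 : ℝ)) := by
  have h := lam_quarter_ne_top N 0 zero_mem_ball
  unfold lam at h
  have h2 : ∀ ω : Fin N → ℕ × Fin 2, ‖deriv (wordMap (famG seqD 2) N ω) 0‖ₑ ^ (1 / 4 : ℝ) =
      ENNReal.ofReal (‖deriv (wordMap (famG seqD 2) N ω) 0‖ ^ (1 / 4 : ℝ)) := by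
    intro ω
    rw [← ofReal_norm, ENNReal.ofReal_rpow_of_nonneg (norm_nonneg _) (by norm_num)]
  rw [tsum_congr h2] at h
  have h3 := ENNReal.summable_toReal h
  refine h3.congr (fun ω => ?_)
  rw [ENNReal.toReal_ofReal (by positivity)]

lemma term_le (N : ℕ) (ω : Fin N → ℕ × Fin 2) {t : ℝ} (ht : 1 / 4 ≤ t) :
    ‖deriv (wordMap (famG seqD 2) N ω) 0‖ ^ t ≤
      ‖deriv (wordMap (famG seqD 2) N ω) 0‖ ^ (1 / 4 : ℝ) :=
  Real.rpow_le_rpow_of_exponent_ge (wordG_deriv_pos N ω zero_mem_ball)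
    (wordG_deriv_le_one N ω zero_mem_ball) ht

lemma summable_ell (N : ℕ) {t : ℝ} (ht : 1 / 4 ≤ t) : Summable (fun ω : Fin N → ℕ × Fin 2 =>
    ‖deriv (wordMap (famG seqD 2) N ω) 0‖ ^ t) :=
  Summable.of_nonneg_of_le (fun ω => by positivity) (fun ω => term_le N ω ht) (summable_quarter N)

lemma lam_eq_ell (N : ℕ) {t : ℝ} (ht : 1 / 4 ≤ t) : lam N t 0 = ENNReal.ofReal (ell N t) := by
  unfold lam ell
  rw [ENNReal.ofReal_tsum_of_nonneg (fun ω => by positivity) (summable_ell N ht)]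
  apply tsum_congr
  intro ω
  rw [← ofReal_norm, ENNReal.ofReal_rpow_of_nonneg (norm_nonneg _) (by linarith)]

lemma ell_nonneg (N : ℕ) (t : ℝ) : 0 ≤ ell N t := tsum_nonneg (fun ω => by positivity)

lemma ell_cont (N : ℕ) : ContinuousOn (ell N) (Ici (1 / 4)) := by
  unfold ell
  apply continuousOn_tsum (u := fun ω : Fin N → ℕ × Fin 2 =>
    ‖deriv (wordMap (famG seqD 2) N ω) 0‖ ^ (1 / 4 : ℝ))
  · intro ω
    exact (Real.continuous_const_rpow (wordG_deriv_pos N ω zero_mem_ball).ne').continuousOn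
  · exact summable_quarter N
  · intro ω t ht
    rw [Real.norm_of_nonneg (by positivity)]
    exact term_le N ω ht

lemma KG_pos : 0 < KG := lt_of_lt_of_le one_pos KG_ge

lemma KGt_ge {t : ℝ} (ht : 0 ≤ t) : 1 ≤ KG ^ t := Real.one_le_rpow KG_ge ht

lemma Kt_eq (t : ℝ) : Kt t = ENNReal.ofReal (KG ^ t) := by
  unfold Kt
  rw [ENNReal.ofReal_rpow_of_pos KG_pos]

lemma ell_submul {t : ℝ} (ht : 1 / 4 ≤ t) (M N : ℕ) :
    ell (M + N) t ≤ KG ^ t * (ell M t * ell N t) := by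
  have h := lam_submul (t := t) (by linarith) M N
  rw [lam_eq_ell _ ht, lam_eq_ell _ ht, lam_eq_ell _ ht, Kt_eq,
    ← ENNReal.ofReal_mul (ell_nonneg M t), ← ENNReal.ofReal_mul (by have := KG_pos; positivity)] at h
  exact (ENNReal.ofReal_le_ofReal_iff (by
    have := KG_pos; have := ell_nonneg M t; have := ell_nonneg N t; positivity)).mp h

lemma ell_supmul {t : ℝ} (ht : 1 / 4 ≤ t) (M N : ℕ) :
    ell M t * ell N t ≤ KG ^ t * ell (M + N) t := by
  have h := lam_supmul (t := t) (by linarith) M N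
  rw [lam_eq_ell _ ht, lam_eq_ell _ ht, lam_eq_ell _ ht, Kt_eq,
    ← ENNReal.ofReal_mul (ell_nonneg M t), ← ENNReal.ofReal_mul (by have := KG_pos; positivity)] at h
  exact (ENNReal.ofReal_le_ofReal_iff (by
    have := KG_pos; have := ell_nonneg (M + N) t; positivity)).mp h

lemma ell_zero {t : ℝ} : ell 0 t = 1 := by
  unfold ell
  simp [wordMap]

lemma ell_sub_pow {t : ℝ} (ht : 1 / 4 ≤ t) (N k : ℕ) :
    ell (N * (k + 1)) t ≤ (KG ^ t) ^ k * ell N t ^ (k + 1) := by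
  have hK : 0 < KG ^ t := Real.rpow_pos_of_pos KG_pos t
  induction k with
  | zero => simp
  | succ k ih =>
    have h1 := ell_submul ht (N * (k + 1)) N
    have e : N * (k + 1 + 1) = N * (k + 1) + N := by ring
    rw [e]
    have h2 := ell_nonneg N t
    calc _ ≤ _ := h1
      _ ≤ KG ^ t * (((KG ^ t) ^ k * ell N t ^ (k + 1)) * ell N t) := by gcongr
      _ = _ := by ring

lemma ell_sup_pow {t : ℝ} (ht : 1 / 4 ≤ t) (N k : ℕ) :
    ell N t ^ (k + 1) ≤ (KG ^ t) ^ k * ell (N * (k + 1)) t := by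
  have hK : 0 < KG ^ t := Real.rpow_pos_of_pos KG_pos t
  induction k with
  | zero => simp
  | succ k ih =>
    have h1 := ell_supmul ht (N * (k + 1)) N
    have e : N * (k + 1 + 1) = N * (k + 1) + N := by ring
    rw [e]
    have h2 := ell_nonneg N t
    calc ell N t ^ (k + 1 + 1) = ell N t ^ (k + 1) * ell N t := by ring
      _ ≤ ((KG ^ t) ^ k * ell (N * (k + 1)) t) * ell N t := by gcongr
      _ = (KG ^ t) ^ k * (ell (N * (k + 1)) t * ell N t) := by ring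
      _ ≤ (KG ^ t) ^ k * (KG ^ t * ell (N * (k + 1) + N) t) := by gcongr
      _ = _ := by ring

lemma ell_claim {t : ℝ} (ht : 1 / 4 ≤ t) {N : ℕ} (hN : KG ^ t < ell N t) (M : ℕ) :
    1 ≤ KG ^ t * ell M t := by
  have hK : 1 ≤ KG ^ t := KGt_ge (by linarith)
  rcases Nat.eq_zero_or_pos M with rfl | hM
  · rw [ell_zero]; linarith
  rcases Nat.eq_zero_or_pos N with rfl | hN0
  · rw [ell_zero] at hN; linarith
  obtain ⟨m, rfl⟩ : ∃ m, M = m + 1 := ⟨M - 1, by omega⟩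
  obtain ⟨n, rfl⟩ : ∃ n, N = n + 1 := ⟨N - 1, by omega⟩
  have h1 := ell_sup_pow ht (n + 1) m
  have h2 := ell_sub_pow ht (m + 1) n
  rw [mul_comm (n + 1) (m + 1)] at h1
  have h3 : (KG ^ t) ^ (m + 1) < ell (n + 1) t ^ (m + 1) := by gcongr
  have hm : 0 < (KG ^ t) ^ m := by positivity
  have h4 : (KG ^ t) ^ m * KG ^ t < (KG ^ t) ^ m * ((KG ^ t) ^ n * ell (m + 1) t ^ (n + 1)) := by
    calc (KG ^ t) ^ m * KG ^ t = (KG ^ t) ^ (m + 1) := by ring
      _ < _ := h3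
      _ ≤ _ := h1
      _ ≤ _ := by gcongr
  have h5 : KG ^ t < (KG ^ t) ^ n * ell (m + 1) t ^ (n + 1) := lt_of_mul_lt_mul_left h4 hm.le
  by_contra hlt
  push Not at hlt
  have h6 : (KG ^ t * ell (m + 1) t) ^ (n + 1) ≤ 1 :=
    pow_le_one₀ (mul_nonneg (by linarith) (ell_nonneg _ _)) hlt.le
  have h7 : 1 < KG ^ t * ((KG ^ t) ^ n * ell (m + 1) t ^ (n + 1)) := by nlinarith
  have h8 : KG ^ t * ((KG ^ t) ^ n * ell (m + 1) t ^ (n + 1)) =
      (KG ^ t * ell (m + 1) t) ^ (n + 1) := by ring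
  linarith

theorem exists_t0 : ∃ t : ℝ, 1 / 4 ≤ t ∧ ∀ N, 1 ≤ KG ^ t * ell N t ∧ ell N t ≤ KG ^ t := by
  set S : Set ℝ := {t | t ∈ Icc (1 / 4) T2 ∧ ∀ N, 1 ≤ KG ^ t * ell N t} with hS
  have hT : (1 / 4 : ℝ) ≤ T2 := by unfold T2; norm_num
  have hcont : ∀ N, ContinuousOn (fun t => KG ^ t * ell N t) (Icc (1 / 4) T2) := by
    intro N
    exact ((Real.continuous_const_rpow KG_pos.ne').continuousOn).mul
      ((ell_cont N).mono Icc_subset_Ici_self)
  have hclosed : IsClosed S := by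
    have : S = ⋂ N, (Icc (1 / 4) T2 ∩ (fun t => KG ^ t * ell N t) ⁻¹' Ici 1) := by
      ext t
      simp only [hS, mem_iInter, mem_inter_iff, mem_preimage, mem_Ici]
      constructor
      · rintro ⟨h1, h2⟩ N
        exact ⟨h1, h2 N⟩
      · intro h
        exact ⟨(h 0).1, fun N => (h N).2⟩
    rw [this]
    apply isClosed_iInter
    intro N
    exact (hcont N).preimage_isClosed_of_isClosed isClosed_Icc isClosed_Ici
  have hcomp : IsCompact S := isCompact_Icc.of_isClosed_subset hclosed (fun t ht => ht.1)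
  have hne : S.Nonempty := by
    refine ⟨1 / 4, ⟨le_refl _, hT⟩, fun N => ?_⟩
    have h1 := lam_quarter_ge N
    rw [lam_eq_ell N (le_refl _), ← ENNReal.ofReal_one,
      ENNReal.ofReal_le_ofReal_iff (ell_nonneg _ _)] at h1
    have h2 : 1 ≤ KG ^ (1 / 4 : ℝ) := KGt_ge (by norm_num)
    nlinarith
  have hmem := hcomp.sSup_mem hne
  set t0 := sSup S with ht0
  have hlt : t0 < T2 := by
    rcases lt_or_eq_of_le hmem.1.2 with h | h
    · exact h
    · exfalso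
      have h1 := hmem.2
      rw [h] at h1
      -- decay
      have h2 : Tendsto (fun N : ℕ => KG ^ T2 * (20 / 99 : ℝ) ^ N) atTop (𝓝 (KG ^ T2 * 0)) :=
        (tendsto_pow_atTop_nhds_zero_of_lt_one (by norm_num) (by norm_num)).const_mul _
      rw [mul_zero] at h2
      obtain ⟨N, hN⟩ := (h2.eventually (gt_mem_nhds one_pos)).exists
      have h3 := lam_T2_le N
      rw [lam_eq_ell N hT, ← ENNReal.ofReal_pow (by norm_num),
        ENNReal.ofReal_le_ofReal_iff (by positivity)] at h3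
      have h4 : 0 < KG ^ T2 := Real.rpow_pos_of_pos KG_pos _
      have h5 := h1 N
      have h6 : KG ^ T2 * ell N T2 ≤ KG ^ T2 * (20 / 99 : ℝ) ^ N := by gcongr
      linarith
  refine ⟨t0, hmem.1.1, fun N => ⟨hmem.2 N, ?_⟩⟩
  by_contra hcon
  push Not at hcon
  have hc : ContinuousOn (fun t => ell N t - KG ^ t) (Ici (1 / 4)) :=
    (ell_cont N).sub (Real.continuous_const_rpow KG_pos.ne').continuousOn
  have h1 : ∀ᶠ t in 𝓝[Ici (1 / 4)] t0, 0 < ell N t - KG ^ t :=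
    (hc t0 hmem.1.1).eventually (lt_mem_nhds (by linarith))
  have h2 : ∀ᶠ t in 𝓝[>] t0, 0 < ell N t - KG ^ t :=
    h1.filter_mono (nhdsWithin_mono _ (fun t ht => (hmem.1.1.trans (le_of_lt ht))))
  have h3 : ∀ᶠ t in 𝓝[>] t0, t < T2 :=
    (lt_mem_nhds hlt |> fun h => (gt_mem_nhds hlt)).filter_mono nhdsWithin_le_nhds
  have h4 : ∀ᶠ t in 𝓝[>] t0, t0 < t := eventually_mem_nhdsWithin
  obtain ⟨t, ht1, ht2, ht3⟩ := (h2.and (h3.and h4)).exists
  have htS : t ∈ S := ⟨⟨hmem.1.1.trans ht3.le, ht2.le⟩,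
    ell_claim (hmem.1.1.trans ht3.le) (by linarith)⟩
  have := le_csSup hcomp.bddAbove htS
  linarith

lemma enorm_iSup_le (N : ℕ) (ω : Fin N → ℕ × Fin 2) {t : ℝ} (ht : 0 ≤ t) :
    (⨆ z ∈ Metric.closedBall (0 : ℂ) 1, ‖deriv (wordMap (famG seqD 2) N ω) z‖ₑ) ^ t ≤
      Kt t * ‖deriv (wordMap (famG seqD 2) N ω) 0‖ₑ ^ t := by
  unfold Kt
  rw [← ENNReal.mul_rpow_of_nonneg _ _ ht]
  apply ENNReal.rpow_le_rpow _ ht
  refine iSup₂_le (fun z hz => ?_)
  rw [← ofReal_norm, ← ofReal_norm, ← ENNReal.ofReal_mul (zero_le_one.trans KG_ge)]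
  exact ENNReal.ofReal_le_ofReal (wordG_distortion N ω
    (Metric.closedBall_subset_ball R0_gt hz) zero_mem_ball)

lemma le_enorm_iSup (N : ℕ) (ω : Fin N → ℕ × Fin 2) {t : ℝ} (ht : 0 ≤ t) :
    ‖deriv (wordMap (famG seqD 2) N ω) 0‖ₑ ^ t ≤
    (⨆ z ∈ Metric.closedBall (0 : ℂ) 1, ‖deriv (wordMap (famG seqD 2) N ω) z‖ₑ) ^ t := by
  apply ENNReal.rpow_le_rpow _ ht
  exact le_iSup₂ (f := fun z (_ : z ∈ Metric.closedBall (0 : ℂ) 1) =>
    ‖deriv (wordMap (famG seqD 2) N ω) z‖ₑ) 0 (by simp)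

theorem isRegular_G : IsRegularSystem (famG seqD 2) := by
  obtain ⟨t, ht, h⟩ := exists_t0
  have ht0 : 0 ≤ t := by linarith
  have hK : 0 < KG ^ t := Real.rpow_pos_of_pos KG_pos t
  refine ⟨t, ht0, ?_⟩
  have hlow : ∀ N, ENNReal.ofReal ((KG ^ t)⁻¹) ≤ partitionSum (famG seqD 2) N t := by
    intro N
    calc ENNReal.ofReal ((KG ^ t)⁻¹) ≤ ENNReal.ofReal (ell N t) := by
          apply ENNReal.ofReal_le_ofReal
          rw [inv_le_iff_one_le_mul₀ hK]
          have := (h N).1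
          linarith
      _ = lam N t 0 := (lam_eq_ell N ht).symm
      _ ≤ _ := ENNReal.tsum_le_tsum (fun ω => le_enorm_iSup N ω ht0)
  have hup : ∀ N, partitionSum (famG seqD 2) N t ≤ ENNReal.ofReal (KG ^ t * KG ^ t) := by
    intro N
    calc partitionSum (famG seqD 2) N t ≤ ∑' ω : Fin N → ℕ × Fin 2,
          Kt t * ‖deriv (wordMap (famG seqD 2) N ω) 0‖ₑ ^ t :=
          ENNReal.tsum_le_tsum (fun ω => enorm_iSup_le N ω ht0)
      _ = Kt t * lam N t 0 := by rw [ENNReal.tsum_mul_left]; rfl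
      _ = ENNReal.ofReal (KG ^ t * ell N t) := by
          rw [lam_eq_ell N ht, Kt_eq, ← ENNReal.ofReal_mul hK.le]
      _ ≤ _ := by
          apply ENNReal.ofReal_le_ofReal
          have := (h N).2
          gcongr
  -- squeeze
  have key : ∀ C : ℝ, Tendsto (fun N : ℕ => ((C : ℝ) : EReal) / (N : EReal)) atTop (𝓝 0) := by
    intro C
    have h1 : Tendsto (fun N : ℕ => C / (N : ℝ)) atTop (𝓝 0) := tendsto_const_div_atTop_nhds_zero_nat C
    have h2 : Tendsto (fun N : ℕ => ((C / (N : ℝ) : ℝ) : EReal)) atTop (𝓝 ((0 : ℝ) : EReal)) :=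
      (continuous_coe_real_ereal.tendsto 0).comp h1
    refine h2.congr (fun N => ?_)
    rw [EReal.coe_div]; rfl
  refine tendsto_of_tendsto_of_tendsto_of_le_of_le (key (Real.log ((KG ^ t)⁻¹)))
    (key (Real.log (KG ^ t * KG ^ t))) ?_ ?_
  · intro N
    apply EReal.div_le_div_right_of_nonneg (by positivity)
    rw [← ENNReal.log_ofReal_of_pos (by positivity)]
    exact ENNReal.log_le_log (hlow N)
  · intro N
    apply EReal.div_le_div_right_of_nonneg (by positivity)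
    rw [← ENNReal.log_ofReal_of_pos (by positivity)]
    exact ENNReal.log_le_log (hup N)

end Pool.Agent.W_MP_c785a0_an
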