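import Pool.Agent.W_MP_c785a0_an.Defs

set_option autoImplicit false

open Filter Topology Set

namespace Pool.Agent.W_MP_c785a0_an

/-- sign attached to `j = 0, 1` -/
def sg (j : Fin 2) : ℝ := if j = 0 then 1 else -1

/-- the real parameter -/
noncomputable def rp (i : ℕ × Fin 2) : ℝ := sg i.2 * seqD i.1

lemma param_two (i : ℕ × Fin 2) : param seqD 2 i = ((rp i : ℝ) : ℂ) := by
  obtain ⟨n, j⟩ := i
  fin_cases j
  · simp [param, rp, sg]
  · have h : Complex.exp (2 * Real.pi * Complex.I * ((1 : ℕ) : ℂ) / ((2 : ℕ) : ℂ)) = -1 := by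
      rw [← Complex.exp_pi_mul_I]
      congr 1
      push_cast
      ring
    simp only [param, rp, sg]
    simp only [Fin.mk_one, one_ne_zero, if_false, Complex.ofReal_mul,
      Complex.ofReal_neg, Complex.ofReal_one]
    rw [h]

lemma seqD_zero : seqD 0 = 2 + 1 / 10 ^ 6 := by simp [seqD]

lemma seqD_succ (n : ℕ) : seqD (n + 1) = 100 ^ (n + 2) := by simp [seqD]

lemma seqD_step (n : ℕ) : 2 ≤ seqD (n + 1) - seqD n := by
  cases n with
  | zero => rw [seqD_succ, seqD_zero]; norm_num
  | succ n =>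
    rw [seqD_succ, seqD_succ]
    have : (1 : ℝ) ≤ 100 ^ (n + 2) := one_le_pow₀ (by norm_num)
    have h2 : (100 : ℝ) ^ (n + 1 + 2) = 100 * 100 ^ (n + 2) := by ring
    rw [h2]; linarith

theorem seqD_admissible : IsAdmissible seqD := by
  refine ⟨?_, seqD_step⟩
  rw [seqD_zero]; norm_num

lemma seqD_gap {m n : ℕ} (h : m < n) : 2 ≤ seqD n - seqD m := by
  induction n with
  | zero => omega
  | succ n ih =>
    rcases Nat.lt_succ_iff_lt_or_eq.mp h with h | h
    · have := ih h
      have := seqD_step n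
      linarith
    · subst h; exact seqD_step m

lemma seqD_ge (n : ℕ) : 2 + 1 / 10 ^ 6 ≤ seqD n := by
  rcases Nat.eq_zero_or_pos n with h | h
  · rw [h, seqD_zero]
  · have := seqD_gap h
    rw [seqD_zero] at this
    linarith

lemma seqD_pos (n : ℕ) : 0 < seqD n := lt_of_lt_of_le (by norm_num) (seqD_ge n)

lemma abs_rp (i : ℕ × Fin 2) : |rp i| = seqD i.1 := by
  unfold rp sg
  split
  · rw [one_mul, abs_of_pos (seqD_pos _)]
  · rw [neg_one_mul, abs_neg, abs_of_pos (seqD_pos _)]

lemma rp_sq (i : ℕ × Fin 2) : rp i ^ 2 = seqD i.1 ^ 2 := by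
  rw [← abs_rp, sq_abs]

lemma rp_gap {i j : ℕ × Fin 2} (h : i ≠ j) : 2 ≤ |rp i - rp j| := by
  obtain ⟨m, a⟩ := i
  obtain ⟨n, b⟩ := j
  have hm := seqD_ge m
  have hn := seqD_ge n
  rcases lt_trichotomy m n with hmn | hmn | hmn
  · have := seqD_gap hmn
    unfold rp sg
    rw [le_abs]
    split_ifs
    · right; linarith
    · left; linarith
    · right; linarith
    · left; linarith
  · subst hmn
    have hab : a ≠ b := fun h' => h (by rw [h'])
    unfold rp sg
    rw [le_abs]
    dsimp only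
    fin_cases a <;> fin_cases b <;> simp at hab ⊢
    · left; linarith
    · right; linarith
  · have := seqD_gap hmn
    unfold rp sg
    rw [le_abs]
    split_ifs
    · left; linarith
    · left; linarith
    · right; linarith
    · right; linarith

lemma famF_eq (i : ℕ × Fin 2) (z : ℂ) :
    famF seqD 2 i z = (z + (rp i : ℂ)) / ((seqD i.1 ^ 2 - 1 : ℝ) : ℂ) := by
  unfold famF fmap
  rw [param_two]
  simp only [Complex.conj_ofReal, Complex.norm_real, Real.norm_eq_abs, abs_rp]

lemma famG_eq (i : ℕ × Fin 2) (z : ℂ) : famG seqD 2 i z = 1 / (z + (rp i : ℂ)) := by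
  unfold famG gmap
  rw [param_two]

/-- product formula for sums over words -/
lemma tsum_word {I : Type*} (u : I → ENNReal) (N : ℕ) :
    ∑' ω : Fin N → I, ∏ j, u (ω j) = (∑' i, u i) ^ N := by
  induction N with
  | zero => simp
  | succ N ih =>
    rw [← (Fin.consEquiv (fun _ : Fin (N + 1) => I)).tsum_eq
      (fun ω : Fin (N + 1) → I => ∏ j, u (ω j))]
    have h : ∀ p : I × (Fin N → I), ∏ j, u ((Fin.consEquiv (fun _ : Fin (N + 1) => I)) p j)
        = u p.1 * ∏ j, u (p.2 j) := by
      intro p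
      rw [Fin.prod_univ_succ]
      simp [Fin.consEquiv]
    rw [tsum_congr h, ENNReal.tsum_prod']
    simp_rw [ENNReal.tsum_mul_left, ENNReal.tsum_mul_right, ih]
    rw [pow_succ]; ring

end Pool.Agent.W_MP_c785a0_an
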