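import Mathlib

set_option autoImplicit false

open Filter Topology Set

namespace Pool.Agent.W_MP_c785a0_an

/-- The composition `s_{ω 0} ∘ ... ∘ s_{ω (N-1)}` of a finite word (the identity for the empty
word). -/
def wordMap {I : Type*} (s : I → ℂ → ℂ) : (N : ℕ) → (Fin N → I) → ℂ → ℂ
  | 0, _ => fun z => z
  | N + 1, ω => fun z => s (ω 0) (wordMap s N (fun i => ω i.succ) z)

/-- The limit set of a family of self-maps of the closed unit disc. -/
def limitSet {I : Type*} (s : I → ℂ → ℂ) : Set ℂ :=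
  {z | ∃ ω : ℕ → I, ∀ N : ℕ, z ∈ wordMap s N (fun i => ω i) '' Metric.closedBall (0 : ℂ) 1}

/-- A conformal iterated function system on the closed unit disc: a countable family of injective
self-maps of the disc with Lipschitz constants bounded by some `c < 1`, such that the images of the
open disc are pairwise disjoint, all maps extend to injective holomorphic maps `V → V` with
non-vanishing Hölder continuous derivative (with one exponent and one constant) on one connected open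
`V` containing the closed disc, and the bounded distortion property holds on `V`. -/
structure IsCIFS {I : Type*} (s : I → ℂ → ℂ) : Prop where
  countable : Countable I
  mapsTo : ∀ i, MapsTo (s i) (Metric.closedBall 0 1) (Metric.closedBall 0 1)
  injOn : ∀ i, InjOn (s i) (Metric.closedBall 0 1)
  contracting : ∃ c : ℝ, c < 1 ∧ ∀ i, ∀ z ∈ Metric.closedBall (0 : ℂ) 1,
    ∀ w ∈ Metric.closedBall (0 : ℂ) 1, dist (s i z) (s i w) ≤ c * dist z w
  disjoint : ∀ i j, i ≠ j → Disjoint (s i '' Metric.ball 0 1) (s j '' Metric.ball 0 1)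
  extension : ∃ V : Set ℂ, IsOpen V ∧ IsConnected V ∧ Metric.closedBall 0 1 ⊆ V ∧
    (∀ i, MapsTo (s i) V V ∧ InjOn (s i) V ∧ DifferentiableOn ℂ (s i) V ∧
      ∀ z ∈ V, deriv (s i) z ≠ 0) ∧
    (∃ ε C : ℝ, 0 < ε ∧ ∀ i, ∀ z ∈ V, ∀ w ∈ V,
      ‖deriv (s i) z - deriv (s i) w‖ ≤ C * ‖z - w‖ ^ ε) ∧
    ∃ K : ℝ, 1 ≤ K ∧ ∀ (N : ℕ) (ω : Fin N → I), ∀ x ∈ V, ∀ y ∈ V,
      ‖deriv (wordMap s N ω) y‖ ≤ K * ‖deriv (wordMap s N ω) x‖

/-- `∑_{|ω| = N} sup_X |s_ω'| ^ t` -/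
noncomputable def partitionSum {I : Type*} (s : I → ℂ → ℂ) (N : ℕ) (t : ℝ) : ENNReal :=
  ∑' ω : Fin N → I, (⨆ z ∈ Metric.closedBall (0 : ℂ) 1, ‖deriv (wordMap s N ω) z‖ₑ) ^ t

/-- The pressure `lim (1/N) log ∑_{|ω| = N} sup_X |s_ω'| ^ t` vanishes at some `t ≥ 0`. -/
def IsRegularSystem {I : Type*} (s : I → ℂ → ℂ) : Prop :=
  ∃ t : ℝ, 0 ≤ t ∧
    Tendsto (fun N : ℕ => ENNReal.log (partitionSum s N t) / (N : EReal)) atTop (𝓝 0)

/-- `f_α(z) = (z + conj α) / (|α|² - 1)` -/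
noncomputable def fmap (α z : ℂ) : ℂ := (z + (starRingEnd ℂ) α) / ((‖α‖ ^ 2 - 1 : ℝ) : ℂ)

/-- `g_α(z) = 1 / (z + α)` -/
noncomputable def gmap (α z : ℂ) : ℂ := 1 / (z + α)

/-- `e(j/T) d_n` for `n ∈ ℕ` and `0 ≤ j ≤ T - 1` (the sequence is indexed from `0` here) -/
noncomputable def param (d : ℕ → ℝ) (T : ℕ) (i : ℕ × Fin T) : ℂ :=
  Complex.exp (2 * Real.pi * Complex.I * ((i.2 : ℕ) : ℂ) / (T : ℂ)) * (d i.1 : ℂ)

/-- the family `F(d, T)` -/
noncomputable def famF (d : ℕ → ℝ) (T : ℕ) (i : ℕ × Fin T) : ℂ → ℂ := fmap (param d T i)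

/-- the family `G(d, T)` -/
noncomputable def famG (d : ℕ → ℝ) (T : ℕ) (i : ℕ × Fin T) : ℂ → ℂ := gmap (param d T i)

/-- the class `D` of sequences -/
def IsAdmissible (d : ℕ → ℝ) : Prop := 2 ≤ d 0 ∧ ∀ n, 2 ≤ d (n + 1) - d n

/-- the sequence `2 + 10 ^ (-6), 100 ^ 2, 100 ^ 3, ...` -/
noncomputable def seqD (n : ℕ) : ℝ := if n = 0 then 2 + 1 / 10 ^ 6 else 100 ^ (n + 1)

end Pool.Agent.W_MP_c785a0_an
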