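import Pool.Agent.W_MP_c785a0_an.FUpper

set_option autoImplicit false

open Filter Topology Set
open scoped ENNReal MeasureTheory NNReal

namespace Pool.Agent.W_MP_c785a0_an

lemma hasDerivAt_famF (i : ℕ × Fin 2) (z : ℂ) :
    HasDerivAt (famF seqD 2 i) (1 / ((seqD i.1 ^ 2 - 1 : ℝ) : ℂ)) z := by
  have h : famF seqD 2 i = fun z => (z + (rp i : ℂ)) / ((seqD i.1 ^ 2 - 1 : ℝ) : ℂ) := by
    funext z; exact famF_eq i z
  rw [h]
  exact ((hasDerivAt_id z).add_const _).div_const _

lemma wordF_affine (N : ℕ) (ω : Fin N → ℕ × Fin 2) :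
    ∃ c : ℂ, ∀ z, HasDerivAt (wordMap (famF seqD 2) N ω) c z := by
  induction N with
  | zero => exact ⟨1, fun z => hasDerivAt_id z⟩
  | succ N ih =>
    obtain ⟨c, hc⟩ := ih (fun i => ω i.succ)
    refine ⟨1 / ((seqD (ω 0).1 ^ 2 - 1 : ℝ) : ℂ) * c, fun z => ?_⟩
    exact (hasDerivAt_famF (ω 0) _).comp z (hc z)

lemma famF_norm_le {R : ℝ} (i : ℕ × Fin 2) {z : ℂ} (hz : ‖z‖ ≤ R) :
    ‖famF seqD 2 i z‖ ≤ (R + seqD i.1) / (seqD i.1 ^ 2 - 1) := by
  have h3 := three_le i.1
  rw [famF_eq, norm_div, Complex.norm_real, Real.norm_eq_abs,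
    abs_of_pos (by linarith : (0 : ℝ) < seqD i.1 ^ 2 - 1)]
  have h4 : ‖z + (rp i : ℂ)‖ ≤ R + seqD i.1 := by
    refine (norm_add_le _ _).trans ?_
    rw [Complex.norm_real, Real.norm_eq_abs, abs_rp]
    linarith
  gcongr

lemma famF_inj (i : ℕ × Fin 2) : Function.Injective (famF seqD 2 i) := by
  intro z w h
  have h1 := famF_sub i z w
  rw [h, sub_self, norm_zero] at h1
  have h2 := cF_pos i
  have h3 : ‖z - w‖ = 0 := by
    rcases mul_eq_zero.mp h1.symm with h | h
    · linarith
    · exact h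
  exact sub_eq_zero.mp (norm_eq_zero.mp h3)

lemma sg_mul_self (j : Fin 2) : sg j * sg j = 1 := by
  unfold sg; split <;> norm_num

lemma sg_eq (j : Fin 2) : sg j = 1 ∨ sg j = -1 := by
  unfold sg; split
  · left; rfl
  · right; rfl

lemma sg_ne {a b : Fin 2} (h : a ≠ b) : sg b = - sg a := by
  fin_cases a <;> fin_cases b <;> simp [sg] at h ⊢

lemma famF_re (i : ℕ × Fin 2) {z : ℂ} (hz : z ∈ Metric.ball (0 : ℂ) 1) :
    1 / (seqD i.1 + 1) < sg i.2 * (famF seqD 2 i z).re ∧
      sg i.2 * (famF seqD 2 i z).re < 1 / (seqD i.1 - 1) := by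
  have h3 := three_le i.1
  have hd := seqD_ge i.1
  rw [mem_ball_zero_iff] at hz
  have hre : |z.re| < 1 := lt_of_le_of_lt (Complex.abs_re_le_norm z) hz
  have e : (famF seqD 2 i z).re = (z.re + rp i) / (seqD i.1 ^ 2 - 1) := by
    rw [famF_eq, Complex.div_ofReal_re]
    simp
  have e2 : sg i.2 * (famF seqD 2 i z).re = (sg i.2 * z.re + seqD i.1) / (seqD i.1 ^ 2 - 1) := by
    rw [e, rp]
    have := sg_mul_self i.2
    rw [mul_div_assoc']
    congr 1
    linear_combination (seqD i.1) * this
  rw [e2]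
  have h4 : |sg i.2 * z.re| < 1 := by
    rw [abs_mul]
    have : |sg i.2| = 1 := by
      rcases sg_eq i.2 with h | h <;> rw [h] <;> simp
    rw [this, one_mul]; exact hre
  obtain ⟨h5, h6⟩ := abs_lt.mp h4
  constructor
  · rw [div_lt_div_iff₀ (by linarith) (by linarith)]
    nlinarith
  · rw [div_lt_div_iff₀ (by linarith) (by linarith)]
    nlinarith

lemma famF_disj_aux {i j : ℕ × Fin 2} (h : i.1 < j.1) {z w : ℂ} (hz : z ∈ Metric.ball (0 : ℂ) 1)
    (hw : w ∈ Metric.ball (0 : ℂ) 1) (he : famF seqD 2 i z = famF seqD 2 j w)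
    (hs : sg i.2 = sg j.2) : False := by
  have h1 := (famF_re i hz).1
  have h2 := (famF_re j hw).2
  rw [he, hs] at h1
  have h3 := seqD_gap h
  have h4 := seqD_ge i.1
  have h5 : 1 / (seqD j.1 - 1) ≤ 1 / (seqD i.1 + 1) :=
    one_div_le_one_div_of_le (by linarith) (by linarith)
  linarith

theorem isCIFS_F : IsCIFS (famF seqD 2) where
  countable := inferInstance
  mapsTo := by
    intro i z hz
    rw [mem_closedBall_zero_iff] at hz ⊢
    refine (famF_norm_le i hz).trans ?_
    have hd := seqD_ge i.1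
    rw [div_le_one (by nlinarith)]
    nlinarith
  injOn := fun i => (famF_inj i).injOn
  contracting := by
    refine ⟨1 / 3, by norm_num, fun i z _ w _ => ?_⟩
    rw [dist_eq_norm, dist_eq_norm, famF_sub]
    gcongr
    exact cF_le i
  disjoint := by
    intro i j hij
    rw [Set.disjoint_left]
    rintro _ ⟨z, hz, rfl⟩ ⟨w, hw, he⟩
    by_cases hs : sg i.2 = sg j.2
    · rcases lt_trichotomy i.1 j.1 with h | h | h
      · exact famF_disj_aux h hz hw he.symm hs
      · apply hij
        have : i.2 = j.2 := by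
          by_contra hne
          have := sg_ne hne
          rw [← hs] at this
          rcases sg_eq i.2 with h | h <;> rw [h] at this <;> norm_num at this
        exact Prod.ext h this
      · exact famF_disj_aux h hw hz he hs.symm
    · have h1 := (famF_re i hz).1
      have h2 := (famF_re j hw).1
      rw [he] at h2
      have h3 : sg j.2 = - sg i.2 := by
        rcases sg_eq i.2 with h | h <;> rcases sg_eq j.2 with h' | h' <;> rw [h, h'] at hs ⊢ <;>
          simp at hs ⊢
      rw [h3] at h2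
      have h4 := seqD_ge i.1
      have h5 := seqD_ge j.1
      have h6 : 0 < 1 / (seqD i.1 + 1) := by positivity
      have h7 : 0 < 1 / (seqD j.1 + 1) := by positivity
      linarith
  extension := by
    refine ⟨Metric.ball 0 2, Metric.isOpen_ball, ?_, Metric.closedBall_subset_ball (by norm_num),
      ?_, ⟨1, 0, by norm_num, ?_⟩, 1, le_refl _, ?_⟩
    · exact (convex_ball (0 : ℂ) 2).isConnected ⟨0, by simp⟩
    · intro i
      refine ⟨?_, (famF_inj i).injOn, ?_, ?_⟩
      · intro z hz
        rw [mem_ball_zero_iff] at hz ⊢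
        refine lt_of_le_of_lt (famF_norm_le i hz.le) ?_
        have hd := seqD_ge i.1
        rw [div_lt_iff₀ (by nlinarith)]
        nlinarith
      · intro z _
        exact (hasDerivAt_famF i z).differentiableAt.differentiableWithinAt
      · intro z _
        rw [(hasDerivAt_famF i z).deriv]
        have := three_le i.1
        rw [one_div]
        apply inv_ne_zero
        exact_mod_cast (by linarith : (seqD i.1 ^ 2 - 1 : ℝ) ≠ 0)
    · intro i z _ w _
      rw [(hasDerivAt_famF i z).deriv, (hasDerivAt_famF i w).deriv]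
      simp
    · intro N ω x _ y _
      obtain ⟨c, hc⟩ := wordF_affine N ω
      rw [(hc x).deriv, (hc y).deriv, one_mul]

end Pool.Agent.W_MP_c785a0_an
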