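import Pool.Agent.W_MP_c785a0_an.Basic

set_option autoImplicit false

open Filter Topology Set
open scoped ENNReal MeasureTheory NNReal

namespace Pool.Agent.W_MP_c785a0_an

/-- contraction ratio of `famF` -/
noncomputable def cF (i : ℕ × Fin 2) : ℝ := 1 / (seqD i.1 ^ 2 - 1)

lemma three_le (n : ℕ) : 3 ≤ seqD n ^ 2 - 1 := by
  have := seqD_ge n
  nlinarith

lemma cF_pos (i : ℕ × Fin 2) : 0 < cF i := by
  have := three_le i.1
  unfold cF
  positivity

lemma cF_le (i : ℕ × Fin 2) : cF i ≤ 1 / 3 := by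
  unfold cF
  exact one_div_le_one_div_of_le (by norm_num) (three_le _)

lemma famF_sub (i : ℕ × Fin 2) (z w : ℂ) :
    ‖famF seqD 2 i z - famF seqD 2 i w‖ = cF i * ‖z - w‖ := by
  have h3 := three_le i.1
  rw [famF_eq, famF_eq]
  have : (z + (rp i : ℂ)) / ((seqD i.1 ^ 2 - 1 : ℝ) : ℂ) -
      (w + (rp i : ℂ)) / ((seqD i.1 ^ 2 - 1 : ℝ) : ℂ) = (z - w) / ((seqD i.1 ^ 2 - 1 : ℝ) : ℂ) := by
    ring
  rw [this, norm_div, Complex.norm_real, Real.norm_eq_abs,
    abs_of_pos (by linarith : (0 : ℝ) < seqD i.1 ^ 2 - 1)]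
  unfold cF
  ring

lemma wordF_sub (N : ℕ) (ω : Fin N → ℕ × Fin 2) (z w : ℂ) :
    ‖wordMap (famF seqD 2) N ω z - wordMap (famF seqD 2) N ω w‖ = (∏ j, cF (ω j)) * ‖z - w‖ := by
  induction N with
  | zero => simp [wordMap]
  | succ N ih =>
    simp only [wordMap]
    rw [famF_sub, ih, Fin.prod_univ_succ]
    ring

lemma ediam_wordF (N : ℕ) (ω : Fin N → ℕ × Fin 2) :
    Metric.ediam (wordMap (famF seqD 2) N ω '' Metric.closedBall 0 1)
      ≤ 2 * ∏ j, ENNReal.ofReal (cF (ω j)) := by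
  apply Metric.ediam_le
  rintro _ ⟨z, hz, rfl⟩ _ ⟨w, hw, rfl⟩
  rw [edist_dist, dist_eq_norm, wordF_sub]
  have h1 : ‖z - w‖ ≤ 2 := by
    have := norm_sub_le z w
    rw [mem_closedBall_zero_iff] at hz hw
    linarith
  have h2 : 0 ≤ ∏ j, cF (ω j) := Finset.prod_nonneg (fun j _ => (cF_pos _).le)
  rw [← ENNReal.ofReal_prod_of_nonneg (fun j _ => (cF_pos _).le)]
  have h3 : (2 : ℝ≥0∞) = ENNReal.ofReal 2 := by simp
  rw [h3, ← ENNReal.ofReal_mul (by norm_num)]
  apply ENNReal.ofReal_le_ofReal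
  nlinarith

/-- bounds for the `7/11`-th powers of the ratios -/
noncomputable def vF (n : ℕ) : ℝ := if n = 0 then 498 / 1000 else 2 / 100 ^ (n + 1)

lemma cF_rpow (i : ℕ × Fin 2) : cF i ^ (7 / 11 : ℝ) ≤ vF i.1 := by
  obtain ⟨n, j⟩ := i
  rcases Nat.eq_zero_or_pos n with rfl | hn
  · have h1 : cF (0, j) ≤ 1 / 3 := cF_le _
    calc cF (0, j) ^ (7 / 11 : ℝ) ≤ (1 / 3) ^ (7 / 11 : ℝ) :=
          Real.rpow_le_rpow (cF_pos _).le h1 (by norm_num)
      _ ≤ 498 / 1000 := by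
          rw [div_eq_mul_inv (7 : ℝ) 11, Real.rpow_mul (by norm_num)]
          have : ((1 / 3 : ℝ) ^ (7 : ℝ)) = (1 / 3) ^ (7 : ℕ) := by norm_cast
          rw [this]
          rw [Real.rpow_inv_le_iff_of_pos (by positivity) (by norm_num) (by norm_num)]
          have : ((498 / 1000 : ℝ) ^ (11 : ℝ)) = (498 / 1000) ^ (11 : ℕ) := by norm_cast
          rw [this]
          norm_num
      _ = vF 0 := by simp [vF]
  · obtain ⟨m, rfl⟩ : ∃ m, n = m + 1 := ⟨n - 1, by omega⟩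
    have h1 : cF (m + 1, j) ≤ 1 := (cF_le _).trans (by norm_num)
    have h0 := cF_pos (m + 1, j)
    have hX : (2 : ℝ) ≤ 100 ^ (m + 2) := by
      have : (1 : ℝ) ≤ 100 ^ m := one_le_pow₀ (by norm_num)
      rw [pow_add]; nlinarith
    calc cF (m + 1, j) ^ (7 / 11 : ℝ) ≤ cF (m + 1, j) ^ (1 / 2 : ℝ) :=
          Real.rpow_le_rpow_of_exponent_ge h0 h1 (by norm_num)
      _ = √(cF (m + 1, j)) := by rw [Real.sqrt_eq_rpow]
      _ ≤ 2 / 100 ^ (m + 2) := by
          rw [Real.sqrt_le_left (by positivity)]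
          unfold cF
          rw [seqD_succ]
          rw [div_pow, div_le_div_iff₀ (by nlinarith) (by positivity)]
          nlinarith
      _ = vF (m + 1) := by simp [vF]

lemma hasSum_vF : HasSum vF (498 / 1000 + 2 / 9900) := by
  have h : HasSum (fun n : ℕ => (2 / 10000 : ℝ) * (1 / 100) ^ n) ((2 / 10000) * (1 - 1 / 100)⁻¹) :=
    (hasSum_geometric_of_lt_one (by norm_num) (by norm_num)).mul_left _
  have h2 : HasSum (fun n : ℕ => vF (n + 1)) (2 / 9900) := by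
    convert h using 1
    · funext n
      simp only [vF, Nat.succ_ne_zero, if_false]
      rw [one_div, inv_pow]
      rw [show n + 1 + 1 = n + 2 from rfl, pow_add]
      field_simp
      norm_num
    · norm_num
  have h3 := (hasSum_nat_add_iff (f := vF) 1).mp h2
  have e : (2 / 9900 : ℝ) + ∑ i ∈ Finset.range 1, vF i = 498 / 1000 + 2 / 9900 := by
    rw [Finset.sum_range_one]
    simp only [vF, if_true]
    ring
  rw [e] at h3
  exact h3

lemma sum_cF : ∑' i : ℕ × Fin 2, (ENNReal.ofReal (cF i)) ^ (7 / 11 : ℝ) ≤ 1 := by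
  have h1 : ∀ i : ℕ × Fin 2, (ENNReal.ofReal (cF i)) ^ (7 / 11 : ℝ) ≤ ENNReal.ofReal (vF i.1) := by
    intro i
    rw [ENNReal.ofReal_rpow_of_pos (cF_pos i)]
    exact ENNReal.ofReal_le_ofReal (cF_rpow i)
  refine (ENNReal.tsum_le_tsum h1).trans ?_
  rw [ENNReal.tsum_prod']
  simp only [tsum_fintype, Finset.sum_const, Finset.card_univ, Fintype.card_fin]
  have h2 : ∀ n, 0 ≤ vF n := by
    intro n; unfold vF; split <;> positivity
  simp_rw [nsmul_eq_mul]
  rw [ENNReal.tsum_mul_left, ← ENNReal.ofReal_tsum_of_nonneg h2 hasSum_vF.summable,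
    hasSum_vF.tsum_eq]
  have : ((2 : ℕ) : ℝ≥0∞) = ENNReal.ofReal 2 := by simp
  rw [this, ← ENNReal.ofReal_mul (by norm_num)]
  rw [← ENNReal.ofReal_one]
  apply ENNReal.ofReal_le_ofReal
  norm_num

theorem dimH_F_le : dimH (limitSet (famF seqD 2)) ≤ ((7 / 11 : ℝ≥0) : ℝ≥0∞) := by
  apply dimH_le_of_hausdorffMeasure_ne_top
  have hr : Tendsto (fun N : ℕ => 2 * ENNReal.ofReal (1 / 3) ^ N) atTop (𝓝 0) := by
    have := ENNReal.tendsto_pow_atTop_nhds_zero_of_lt_one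
      (r := ENNReal.ofReal (1 / 3)) (by
        rw [← ENNReal.ofReal_one]
        exact (ENNReal.ofReal_lt_ofReal_iff (by norm_num)).mpr (by norm_num))
    have h2 := ENNReal.Tendsto.const_mul (a := 2) this (Or.inr (by simp))
    simpa using h2
  have key := MeasureTheory.Measure.hausdorffMeasure_le_liminf_tsum (X := ℂ)
    (ι := fun N : ℕ => (Fin N → ℕ × Fin 2)) (((7 / 11 : ℝ≥0) : ℝ)) (limitSet (famF seqD 2)) (l := atTop)
    (fun N : ℕ => 2 * ENNReal.ofReal (1 / 3) ^ N) hr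
    (fun N ω => wordMap (famF seqD 2) N ω '' Metric.closedBall 0 1)
    (Filter.Eventually.of_forall (fun N ω => by
      refine (ediam_wordF N ω).trans ?_
      gcongr
      calc ∏ j, ENNReal.ofReal (cF (ω j)) ≤ ∏ _j : Fin N, ENNReal.ofReal (1 / 3) := by
            apply Finset.prod_le_prod'
            intro j _
            exact ENNReal.ofReal_le_ofReal (cF_le _)
        _ = ENNReal.ofReal (1 / 3) ^ N := by simp))
    (Filter.Eventually.of_forall (fun N => by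
      rintro z ⟨ω, hω⟩
      exact Set.mem_iUnion.mpr ⟨fun i => ω i, hω N⟩))
  refine ne_top_of_le_ne_top (b := 2) (by simp) (key.trans ?_)
  · refine liminf_le_of_le (by isBoundedDefault) ?_
    intro b hb
    obtain ⟨N, hN⟩ := hb.exists
    refine hN.trans ?_
    have h1 : ∀ ω : Fin N → ℕ × Fin 2,
        Metric.ediam (wordMap (famF seqD 2) N ω '' Metric.closedBall 0 1) ^ (((7 / 11 : ℝ≥0) : ℝ))
        ≤ 2 * ∏ j, (ENNReal.ofReal (cF (ω j))) ^ (7 / 11 : ℝ) := by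
      intro ω
      have e : (((7 / 11 : ℝ≥0) : ℝ)) = 7 / 11 := by norm_num
      rw [e]
      refine (ENNReal.rpow_le_rpow (ediam_wordF N ω) (by norm_num)).trans ?_
      rw [ENNReal.mul_rpow_of_nonneg _ _ (by norm_num)]
      rw [ENNReal.prod_rpow_of_nonneg (by norm_num)]
      gcongr
      calc (2 : ℝ≥0∞) ^ (7 / 11 : ℝ) ≤ 2 ^ (1 : ℝ) :=
            ENNReal.rpow_le_rpow_of_exponent_le (by norm_num) (by norm_num)
        _ = 2 := by simp
    refine (ENNReal.tsum_le_tsum h1).trans ?_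
    rw [ENNReal.tsum_mul_left,
      tsum_word (fun i : ℕ × Fin 2 => (ENNReal.ofReal (cF i)) ^ (7 / 11 : ℝ)) N]
    calc 2 * (∑' i : ℕ × Fin 2, (ENNReal.ofReal (cF i)) ^ (7 / 11 : ℝ)) ^ N ≤ 2 * 1 ^ N := by
          gcongr
          exact sum_cF
      _ = 2 := by simp

end Pool.Agent.W_MP_c785a0_an
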