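import Pool.Agent.W_MP_c785a0_an.Basic

set_option autoImplicit false

open Filter Topology Set
open scoped ENNReal MeasureTheory NNReal

namespace Pool.Agent.W_MP_c785a0_an

section general

variable {I : Type*} {s : I → ℂ → ℂ} {V : Set ℂ}

lemma wordMap_mapsTo (hm : ∀ i, MapsTo (s i) V V) (N : ℕ) (ω : Fin N → I) :
    MapsTo (wordMap s N ω) V V := by
  induction N with
  | zero => exact fun z hz => hz
  | succ N ih => exact fun z hz => hm _ (ih _ hz)

lemma wordMap_diff (hV : IsOpen V) (hm : ∀ i, MapsTo (s i) V V)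
    (hd : ∀ i, DifferentiableOn ℂ (s i) V) (N : ℕ) (ω : Fin N → I) {z : ℂ} (hz : z ∈ V) :
    DifferentiableAt ℂ (wordMap s N ω) z := by
  induction N with
  | zero => exact differentiableAt_id
  | succ N ih =>
    have h1 := ih (fun i => ω i.succ)
    have h2 : DifferentiableAt ℂ (s (ω 0)) (wordMap s N (fun i => ω i.succ) z) :=
      (hd (ω 0)).differentiableAt (hV.mem_nhds (wordMap_mapsTo hm N _ hz))
    exact h2.comp z h1

lemma deriv_wordMap_succ (hV : IsOpen V) (hm : ∀ i, MapsTo (s i) V V)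
    (hd : ∀ i, DifferentiableOn ℂ (s i) V) (N : ℕ) (ω : Fin (N + 1) → I) {z : ℂ} (hz : z ∈ V) :
    deriv (wordMap s (N + 1) ω) z =
      deriv (s (ω 0)) (wordMap s N (fun i => ω i.succ) z) *
        deriv (wordMap s N (fun i => ω i.succ)) z := by
  have h1 := wordMap_diff hV hm hd N (fun i => ω i.succ) hz
  have h2 : DifferentiableAt ℂ (s (ω 0)) (wordMap s N (fun i => ω i.succ) z) :=
    (hd (ω 0)).differentiableAt (hV.mem_nhds (wordMap_mapsTo hm N _ hz))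
  exact deriv_comp z h2 h1

lemma wordMap_contract {c : ℝ} (hc : 0 ≤ c) (hm : ∀ i, MapsTo (s i) V V)
    (hl : ∀ i, ∀ z ∈ V, ∀ w ∈ V, ‖s i z - s i w‖ ≤ c * ‖z - w‖) (N : ℕ) (ω : Fin N → I)
    {z w : ℂ} (hz : z ∈ V) (hw : w ∈ V) :
    ‖wordMap s N ω z - wordMap s N ω w‖ ≤ c ^ N * ‖z - w‖ := by
  induction N with
  | zero => simp [wordMap]
  | succ N ih =>
    have h1 := hl (ω 0) _ (wordMap_mapsTo hm N (fun i => ω i.succ) hz) _
      (wordMap_mapsTo hm N (fun i => ω i.succ) hw)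
    refine h1.trans ?_
    calc c * ‖_‖ ≤ c * (c ^ N * ‖z - w‖) := by gcongr; exact ih _
      _ = c ^ (N + 1) * ‖z - w‖ := by ring

lemma wordMap_distortion {c : ℝ} (hc : 0 ≤ c) (hV : IsOpen V) (hm : ∀ i, MapsTo (s i) V V)
    (hd : ∀ i, DifferentiableOn ℂ (s i) V)
    (hl : ∀ i, ∀ z ∈ V, ∀ w ∈ V, ‖s i z - s i w‖ ≤ c * ‖z - w‖)
    (hdist : ∀ i, ∀ z ∈ V, ∀ w ∈ V, ‖deriv (s i) z‖ ≤ Real.exp (2 * ‖z - w‖) * ‖deriv (s i) w‖)
    (N : ℕ) (ω : Fin N → I) {z w : ℂ} (hz : z ∈ V) (hw : w ∈ V) :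
    ‖deriv (wordMap s N ω) z‖ ≤
      Real.exp (2 * (∑ k ∈ Finset.range N, c ^ k) * ‖z - w‖) * ‖deriv (wordMap s N ω) w‖ := by
  induction N with
  | zero => simp [wordMap]
  | succ N ih =>
    rw [deriv_wordMap_succ hV hm hd N ω hz, deriv_wordMap_succ hV hm hd N ω hw, norm_mul, norm_mul]
    have h1 := hdist (ω 0) _ (wordMap_mapsTo hm N (fun i => ω i.succ) hz) _
      (wordMap_mapsTo hm N (fun i => ω i.succ) hw)
    have h2 := ih (fun i => ω i.succ)
    have h3 := wordMap_contract hc hm hl N (fun i => ω i.succ) hz hw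
    rw [Finset.sum_range_succ]
    have h4 : Real.exp (2 * (∑ k ∈ Finset.range N, c ^ k + c ^ N) * ‖z - w‖) =
        Real.exp (2 * (c ^ N * ‖z - w‖)) *
          Real.exp (2 * (∑ k ∈ Finset.range N, c ^ k) * ‖z - w‖) := by
      rw [← Real.exp_add]; congr 1; ring
    rw [h4]
    have h5 : ‖deriv (s (ω 0)) (wordMap s N (fun i => ω i.succ) z)‖ ≤
        Real.exp (2 * (c ^ N * ‖z - w‖)) *
          ‖deriv (s (ω 0)) (wordMap s N (fun i => ω i.succ) w)‖ := by
      refine h1.trans ?_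
      gcongr
    calc _ ≤ (Real.exp (2 * (c ^ N * ‖z - w‖)) *
          ‖deriv (s (ω 0)) (wordMap s N (fun i => ω i.succ) w)‖) *
          (Real.exp (2 * (∑ k ∈ Finset.range N, c ^ k) * ‖z - w‖) *
            ‖deriv (wordMap s N (fun i => ω i.succ)) w‖) := by gcongr
      _ = _ := by ring

end general

/-- radius of the open disc on which `famG` acts -/
noncomputable def R0 : ℝ := 1 + 1 / (2 * 10 ^ 6)

/-- contraction constant -/
noncomputable def cG : ℝ := 1 / R0 ^ 2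

lemma R0_gt : 1 < R0 := by unfold R0; norm_num

lemma cG_lt : cG < 1 := by
  unfold cG
  rw [div_lt_one (by have := R0_gt; positivity)]
  exact one_lt_pow₀ R0_gt (by norm_num)

lemma cG_pos : 0 < cG := by
  have := R0_gt
  unfold cG; positivity

lemma R0_le (i : ℕ × Fin 2) {z : ℂ} (hz : ‖z‖ ≤ R0) : seqD i.1 - R0 ≤ ‖z + (rp i : ℂ)‖ := by
  have h1 : ‖((rp i : ℝ) : ℂ)‖ = seqD i.1 := by
    rw [Complex.norm_real, Real.norm_eq_abs, abs_rp]
  have h2 := norm_sub_norm_le ((rp i : ℝ) : ℂ) (-z)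
  rw [norm_neg, sub_neg_eq_add, h1, add_comm ((rp i : ℝ) : ℂ) z] at h2
  linarith

lemma R0_le' (i : ℕ × Fin 2) {z : ℂ} (hz : ‖z‖ ≤ R0) : R0 ≤ ‖z + (rp i : ℂ)‖ := by
  have := R0_le i hz
  have := seqD_ge i.1
  unfold R0 at *
  norm_num at *
  linarith

lemma add_ne (i : ℕ × Fin 2) {z : ℂ} (hz : ‖z‖ ≤ R0) : z + (rp i : ℂ) ≠ 0 := by
  have h1 := R0_le' i hz
  have h2 := R0_gt
  intro h
  rw [h, norm_zero] at h1
  linarith

lemma famG_norm_le (i : ℕ × Fin 2) {z : ℂ} (hz : ‖z‖ ≤ R0) : ‖famG seqD 2 i z‖ ≤ 1 / R0 := by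
  rw [famG_eq, norm_div, norm_one]
  exact one_div_le_one_div_of_le (by have := R0_gt; linarith) (R0_le' i hz)

lemma famG_norm_le' (i : ℕ × Fin 2) {z : ℂ} (hz : ‖z‖ ≤ R0) : ‖famG seqD 2 i z‖ < 1 := by
  refine lt_of_le_of_lt (famG_norm_le i hz) ?_
  rw [div_lt_one (by have := R0_gt; linarith)]
  exact R0_gt

lemma hasDerivAt_famG (i : ℕ × Fin 2) {z : ℂ} (hz : ‖z‖ ≤ R0) :
    HasDerivAt (famG seqD 2 i) (-1 / (z + (rp i : ℂ)) ^ 2) z := by
  have h : famG seqD 2 i = fun z => (z + (rp i : ℂ))⁻¹ := by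
    funext z; rw [famG_eq, one_div]
  rw [h]
  exact ((hasDerivAt_id z).add_const _).fun_inv (add_ne i hz)

lemma norm_deriv_famG (i : ℕ × Fin 2) {z : ℂ} (hz : ‖z‖ ≤ R0) :
    ‖deriv (famG seqD 2 i) z‖ = 1 / ‖z + (rp i : ℂ)‖ ^ 2 := by
  rw [(hasDerivAt_famG i hz).deriv, norm_div, norm_neg, norm_one, norm_pow]

lemma famG_sub (i : ℕ × Fin 2) {z w : ℂ} (hz : ‖z‖ ≤ R0) (hw : ‖w‖ ≤ R0) :
    ‖famG seqD 2 i z - famG seqD 2 i w‖ =
      ‖z - w‖ / (‖z + (rp i : ℂ)‖ * ‖w + (rp i : ℂ)‖) := by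
  have h1 := add_ne i hz
  have h2 := add_ne i hw
  rw [famG_eq, famG_eq]
  have : 1 / (z + (rp i : ℂ)) - 1 / (w + (rp i : ℂ)) =
      -(z - w) / ((z + (rp i : ℂ)) * (w + (rp i : ℂ))) := by
    field_simp
    ring
  rw [this, norm_div, norm_neg, norm_mul]

lemma famG_contract (i : ℕ × Fin 2) {z w : ℂ} (hz : ‖z‖ ≤ R0) (hw : ‖w‖ ≤ R0) :
    ‖famG seqD 2 i z - famG seqD 2 i w‖ ≤ cG * ‖z - w‖ := by
  rw [famG_sub i hz hw]
  have h1 := R0_le' i hz
  have h2 := R0_le' i hw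
  have h0 := R0_gt
  unfold cG
  rw [div_mul_eq_mul_div, one_mul]
  gcongr
  nlinarith

lemma famG_inj (i : ℕ × Fin 2) {z w : ℂ} (hz : ‖z‖ ≤ R0) (hw : ‖w‖ ≤ R0)
    (h : famG seqD 2 i z = famG seqD 2 i w) : z = w := by
  have h1 := famG_sub i hz hw
  rw [h, sub_self, norm_zero] at h1
  have h2 := R0_le' i hz
  have h3 := R0_le' i hw
  have h0 := R0_gt
  have h4 : ‖z - w‖ = 0 := by
    rcases div_eq_zero_iff.mp h1.symm with h | h
    · exact h
    · exfalso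
      have : 0 < ‖z + (rp i : ℂ)‖ * ‖w + (rp i : ℂ)‖ := by
        apply mul_pos <;> linarith
      linarith
  exact sub_eq_zero.mp (norm_eq_zero.mp h4)

lemma famG_dist (i : ℕ × Fin 2) {z w : ℂ} (hz : ‖z‖ ≤ R0) (hw : ‖w‖ ≤ R0) :
    ‖deriv (famG seqD 2 i) z‖ ≤ Real.exp (2 * ‖z - w‖) * ‖deriv (famG seqD 2 i) w‖ := by
  rw [norm_deriv_famG i hz, norm_deriv_famG i hw]
  have h2 := R0_le' i hz
  have h3 := R0_le' i hw
  have h0 := R0_gt
  have h4 : ‖w + (rp i : ℂ)‖ ≤ Real.exp (‖z - w‖) * ‖z + (rp i : ℂ)‖ := by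
    have h5 : ‖w + (rp i : ℂ)‖ ≤ ‖z + (rp i : ℂ)‖ + ‖z - w‖ := by
      have : w + (rp i : ℂ) = (z + (rp i : ℂ)) - (z - w) := by ring
      rw [this]; exact norm_sub_le _ _
    have h6 := Real.add_one_le_exp ‖z - w‖
    have h7 : 0 ≤ ‖z - w‖ := norm_nonneg _
    calc ‖w + (rp i : ℂ)‖ ≤ (‖z - w‖ + 1) * ‖z + (rp i : ℂ)‖ := by nlinarith
      _ ≤ _ := by gcongr
  have h5 : Real.exp (2 * ‖z - w‖) = Real.exp (‖z - w‖) ^ 2 := by
    rw [← Real.exp_nat_mul]; norm_cast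
  have h8 : 0 < ‖z + (rp i : ℂ)‖ := by linarith
  have h9 : 0 < ‖w + (rp i : ℂ)‖ := by linarith
  rw [h5, ← mul_div_assoc, mul_one, div_le_div_iff₀ (by positivity) (by positivity), one_mul,
    ← mul_pow]
  gcongr

lemma famG_holder (i : ℕ × Fin 2) {z w : ℂ} (hz : ‖z‖ ≤ R0) (hw : ‖w‖ ≤ R0) :
    ‖deriv (famG seqD 2 i) z - deriv (famG seqD 2 i) w‖ ≤ 2 * ‖z - w‖ ^ (1 : ℝ) := by
  rw [Real.rpow_one, (hasDerivAt_famG i hz).deriv, (hasDerivAt_famG i hw).deriv]
  have h1 := add_ne i hz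
  have h2 := add_ne i hw
  have h3 := R0_le' i hz
  have h4 := R0_le' i hw
  have h0 := R0_gt
  set a := z + (rp i : ℂ) with ha
  set b := w + (rp i : ℂ) with hb
  have e1 : z - w = a - b := by rw [ha, hb]; ring
  have e : -1 / a ^ 2 - -1 / b ^ 2 = (a - b) * ((1 / a) * (1 / b) ^ 2 + (1 / a) ^ 2 * (1 / b)) := by
    field_simp
    ring
  rw [e1, e, norm_mul]
  have h5 : ‖1 / a‖ ≤ 1 := by
    rw [norm_div, norm_one, div_le_one (by linarith)]; linarith
  have h6 : ‖1 / b‖ ≤ 1 := by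
    rw [norm_div, norm_one, div_le_one (by linarith)]; linarith
  have h7 : ‖(1 / a) * (1 / b) ^ 2 + (1 / a) ^ 2 * (1 / b)‖ ≤ 2 := by
    refine (norm_add_le _ _).trans ?_
    rw [norm_mul, norm_mul, norm_pow, norm_pow]
    have : ‖1 / a‖ * ‖1 / b‖ ^ 2 ≤ 1 * 1 ^ 2 := by gcongr
    have : ‖1 / a‖ ^ 2 * ‖1 / b‖ ≤ 1 ^ 2 * 1 := by gcongr
    linarith
  rw [mul_comm]
  gcongr

lemma famG_mapsTo (i : ℕ × Fin 2) :
    MapsTo (famG seqD 2 i) (Metric.ball 0 R0) (Metric.ball 0 R0) := by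
  intro z hz
  rw [mem_ball_zero_iff] at hz ⊢
  exact (famG_norm_le' i hz.le).trans R0_gt

lemma famG_diff (i : ℕ × Fin 2) : DifferentiableOn ℂ (famG seqD 2 i) (Metric.ball 0 R0) := by
  intro z hz
  rw [mem_ball_zero_iff] at hz
  exact (hasDerivAt_famG i hz.le).differentiableAt.differentiableWithinAt

/-- the distortion constant -/
noncomputable def KG : ℝ := Real.exp (2 * (1 - cG)⁻¹ * (2 * R0))

lemma KG_ge : 1 ≤ KG := by
  have := R0_gt
  have := cG_lt
  have : 0 < 1 - cG := by linarith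
  unfold KG
  apply Real.one_le_exp
  positivity

theorem wordG_distortion (N : ℕ) (ω : Fin N → ℕ × Fin 2) {z w : ℂ} (hz : z ∈ Metric.ball (0 : ℂ) R0)
    (hw : w ∈ Metric.ball (0 : ℂ) R0) :
    ‖deriv (wordMap (famG seqD 2) N ω) z‖ ≤ KG * ‖deriv (wordMap (famG seqD 2) N ω) w‖ := by
  have h := wordMap_distortion (s := famG seqD 2) (V := Metric.ball 0 R0) (c := cG)
    cG_pos.le Metric.isOpen_ball famG_mapsTo famG_diff
    (fun i z hz w hw => famG_contract i (mem_ball_zero_iff.mp hz).le (mem_ball_zero_iff.mp hw).le)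
    (fun i z hz w hw => famG_dist i (mem_ball_zero_iff.mp hz).le (mem_ball_zero_iff.mp hw).le)
    N ω hz hw
  refine h.trans ?_
  unfold KG
  have h1 : ∑ k ∈ Finset.range N, cG ^ k ≤ (1 - cG)⁻¹ := by
    have := (hasSum_geometric_of_lt_one cG_pos.le cG_lt)
    rw [← this.tsum_eq]
    exact this.summable.sum_le_tsum _ (fun k _ => pow_nonneg cG_pos.le k)
  have h2 : ‖z - w‖ ≤ 2 * R0 := by
    rw [mem_ball_zero_iff] at hz hw
    have := norm_sub_le z w
    linarith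
  have h3 := cG_lt
  have h4 : 0 < 1 - cG := by linarith
  gcongr

theorem isCIFS_G : IsCIFS (famG seqD 2) where
  countable := inferInstance
  mapsTo := by
    intro i z hz
    rw [mem_closedBall_zero_iff] at hz ⊢
    exact (famG_norm_le' i (hz.trans R0_gt.le)).le
  injOn := by
    intro i z hz w hw h
    rw [mem_closedBall_zero_iff] at hz hw
    exact famG_inj i (hz.trans R0_gt.le) (hw.trans R0_gt.le) h
  contracting := by
    refine ⟨cG, cG_lt, fun i z hz w hw => ?_⟩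
    rw [mem_closedBall_zero_iff] at hz hw
    rw [dist_eq_norm, dist_eq_norm]
    exact famG_contract i (hz.trans R0_gt.le) (hw.trans R0_gt.le)
  disjoint := by
    intro i j hij
    rw [Set.disjoint_left]
    rintro _ ⟨z, hz, rfl⟩ ⟨w, hw, he⟩
    rw [mem_ball_zero_iff] at hz hw
    have h1 := add_ne i (hz.le.trans R0_gt.le)
    have h2 := add_ne j (hw.le.trans R0_gt.le)
    rw [famG_eq, famG_eq] at he
    have h3 : w + (rp j : ℂ) = z + (rp i : ℂ) := by
      rw [one_div, one_div] at he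
      exact inv_injective he
    have h4 : w - z = ((rp i - rp j : ℝ) : ℂ) := by
      push_cast
      linear_combination h3
    have h5 : ‖w - z‖ < 2 := by
      have := norm_sub_le w z
      linarith
    rw [h4, Complex.norm_real, Real.norm_eq_abs] at h5
    have := rp_gap hij
    linarith
  extension := by
    refine ⟨Metric.ball 0 R0, Metric.isOpen_ball, ?_, Metric.closedBall_subset_ball R0_gt,
      ?_, ⟨1, 2, by norm_num, ?_⟩, KG, KG_ge, ?_⟩
    · exact (convex_ball (0 : ℂ) R0).isConnected ⟨0, by simp; have := R0_gt; linarith⟩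
    · intro i
      refine ⟨famG_mapsTo i, ?_, famG_diff i, ?_⟩
      · intro z hz w hw h
        rw [mem_ball_zero_iff] at hz hw
        exact famG_inj i hz.le hw.le h
      · intro z hz
        rw [mem_ball_zero_iff] at hz
        have h1 := norm_deriv_famG i hz.le
        have h2 := R0_le' i hz.le
        have h3 := R0_gt
        rw [← norm_ne_zero_iff, h1]
        have : 0 < ‖z + (rp i : ℂ)‖ := by linarith
        positivity
    · intro i z hz w hw
      rw [mem_ball_zero_iff] at hz hw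
      exact famG_holder i hz.le hw.le
    · intro N ω x hx y hy
      exact wordG_distortion N ω hy hx

end Pool.Agent.W_MP_c785a0_an
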