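import Pool.Agent.W_MP_c785a0_an.GCifs

set_option autoImplicit false

open Filter Topology Set
open scoped ENNReal MeasureTheory NNReal

namespace Pool.Agent.W_MP_c785a0_an

/-- transfer operator -/
noncomputable def Tr (t : ℝ) (f : ℂ → ℝ≥0∞) (x : ℂ) : ℝ≥0∞ :=
  ∑' i : ℕ × Fin 2, ‖deriv (famG seqD 2 i) x‖ₑ ^ t * f (famG seqD 2 i x)

lemma wordG_mapsTo (N : ℕ) (ω : Fin N → ℕ × Fin 2) :
    MapsTo (wordMap (famG seqD 2) N ω) (Metric.ball 0 R0) (Metric.ball 0 R0) :=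
  wordMap_mapsTo famG_mapsTo N ω

lemma Tr_iter {t : ℝ} (ht : 0 ≤ t) (N : ℕ) (f : ℂ → ℝ≥0∞) {x : ℂ} (hx : x ∈ Metric.ball (0 : ℂ) R0) :
    (Tr t)^[N] f x = ∑' ω : Fin N → ℕ × Fin 2, ‖deriv (wordMap (famG seqD 2) N ω) x‖ₑ ^ t *
      f (wordMap (famG seqD 2) N ω x) := by
  induction N generalizing f with
  | zero => simp [wordMap]
  | succ N ih =>
    rw [Function.iterate_succ_apply, ih]
    rw [← (Fin.consEquiv (fun _ : Fin (N + 1) => ℕ × Fin 2)).tsum_eq, ENNReal.tsum_prod',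
      ENNReal.tsum_comm]
    apply tsum_congr
    intro ω
    unfold Tr
    rw [← ENNReal.tsum_mul_left]
    apply tsum_congr
    intro i
    have e1 : (Fin.consEquiv (fun _ : Fin (N + 1) => ℕ × Fin 2)) (i, ω) = Fin.cons i ω := rfl
    rw [e1, deriv_wordMap_succ Metric.isOpen_ball famG_mapsTo famG_diff N _ hx]
    simp only [wordMap, Fin.cons_zero, Fin.cons_succ]
    rw [enorm_mul, ENNReal.mul_rpow_of_nonneg _ _ ht]
    ring

/-- the sum of the `t`-th powers of the derivatives at `0` -/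
noncomputable def lam (N : ℕ) (t : ℝ) (x : ℂ) : ℝ≥0∞ :=
  ∑' ω : Fin N → ℕ × Fin 2, ‖deriv (wordMap (famG seqD 2) N ω) x‖ₑ ^ t

lemma lam_eq {t : ℝ} (ht : 0 ≤ t) (N : ℕ) {x : ℂ} (hx : x ∈ Metric.ball (0 : ℂ) R0) :
    lam N t x = (Tr t)^[N] (fun _ => 1) x := by
  rw [Tr_iter ht N _ hx]
  simp [lam]

lemma lam_zero (t : ℝ) (x : ℂ) : lam 0 t x = 1 := by
  simp [lam, wordMap]

/-- distortion constant in `ℝ≥0∞` -/
noncomputable def Kt (t : ℝ) : ℝ≥0∞ := ENNReal.ofReal KG ^ t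

lemma Kt_ge {t : ℝ} (ht : 0 ≤ t) : 1 ≤ Kt t := by
  unfold Kt
  have h1 : 1 ≤ ENNReal.ofReal KG := by
    rw [← ENNReal.ofReal_one]
    exact ENNReal.ofReal_le_ofReal KG_ge
  calc (1 : ℝ≥0∞) = 1 ^ t := (ENNReal.one_rpow t).symm
    _ ≤ _ := ENNReal.rpow_le_rpow h1 ht

lemma enorm_dist (N : ℕ) (ω : Fin N → ℕ × Fin 2) {t : ℝ} (ht : 0 ≤ t) {z w : ℂ}
    (hz : z ∈ Metric.ball (0 : ℂ) R0) (hw : w ∈ Metric.ball (0 : ℂ) R0) :
    ‖deriv (wordMap (famG seqD 2) N ω) z‖ₑ ^ t ≤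
      Kt t * ‖deriv (wordMap (famG seqD 2) N ω) w‖ₑ ^ t := by
  unfold Kt
  rw [← ENNReal.mul_rpow_of_nonneg _ _ ht]
  apply ENNReal.rpow_le_rpow _ ht
  rw [← ofReal_norm, ← ofReal_norm,
    ← ENNReal.ofReal_mul (zero_le_one.trans KG_ge)]
  exact ENNReal.ofReal_le_ofReal (wordG_distortion N ω hz hw)

lemma lam_dist {t : ℝ} (ht : 0 ≤ t) (N : ℕ) {z w : ℂ}
    (hz : z ∈ Metric.ball (0 : ℂ) R0) (hw : w ∈ Metric.ball (0 : ℂ) R0) :
    lam N t z ≤ Kt t * lam N t w := by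
  unfold lam
  rw [← ENNReal.tsum_mul_left]
  exact ENNReal.tsum_le_tsum (fun ω => enorm_dist N ω ht hz hw)

lemma zero_mem_ball : (0 : ℂ) ∈ Metric.ball (0 : ℂ) R0 := by
  have := R0_gt
  simp; linarith

lemma lam_add {t : ℝ} (ht : 0 ≤ t) (M N : ℕ) :
    lam (M + N) t 0 = ∑' ω : Fin M → ℕ × Fin 2, ‖deriv (wordMap (famG seqD 2) M ω) 0‖ₑ ^ t *
      lam N t (wordMap (famG seqD 2) M ω 0) := by
  rw [lam_eq ht _ zero_mem_ball, Function.iterate_add_apply, Tr_iter ht M _ zero_mem_ball]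
  apply tsum_congr
  intro ω
  rw [lam_eq ht N (wordG_mapsTo M ω zero_mem_ball)]

lemma lam_submul {t : ℝ} (ht : 0 ≤ t) (M N : ℕ) :
    lam (M + N) t 0 ≤ Kt t * (lam M t 0 * lam N t 0) := by
  rw [lam_add ht]
  calc ∑' ω : Fin M → ℕ × Fin 2, ‖deriv (wordMap (famG seqD 2) M ω) 0‖ₑ ^ t *
      lam N t (wordMap (famG seqD 2) M ω 0) ≤
      ∑' ω : Fin M → ℕ × Fin 2, ‖deriv (wordMap (famG seqD 2) M ω) 0‖ₑ ^ t *
      (Kt t * lam N t 0) := by
        apply ENNReal.tsum_le_tsum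
        intro ω
        gcongr
        exact lam_dist ht N (wordG_mapsTo M ω zero_mem_ball) zero_mem_ball
    _ = Kt t * (lam M t 0 * lam N t 0) := by
        rw [ENNReal.tsum_mul_right]
        change lam M t 0 * (Kt t * lam N t 0) = _
        ring

lemma lam_supmul {t : ℝ} (ht : 0 ≤ t) (M N : ℕ) :
    lam M t 0 * lam N t 0 ≤ Kt t * lam (M + N) t 0 := by
  rw [lam_add ht, ← ENNReal.tsum_mul_left]
  nth_rewrite 1 [lam]
  rw [← ENNReal.tsum_mul_right]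
  apply ENNReal.tsum_le_tsum
  intro ω
  have h := lam_dist ht N zero_mem_ball (wordG_mapsTo M ω zero_mem_ball)
  calc ‖deriv (wordMap (famG seqD 2) M ω) 0‖ₑ ^ t * lam N t 0 ≤
      ‖deriv (wordMap (famG seqD 2) M ω) 0‖ₑ ^ t *
        (Kt t * lam N t (wordMap (famG seqD 2) M ω 0)) := by gcongr
    _ = _ := by ring

/-! ### upper bounds -/

/-- bound for the derivative -/
lemma deriv_le_one (i : ℕ × Fin 2) {x : ℂ} (hx : x ∈ Metric.ball (0 : ℂ) R0) :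
    ‖deriv (famG seqD 2 i) x‖ ≤ cG := by
  rw [mem_ball_zero_iff] at hx
  rw [norm_deriv_famG i hx.le]
  unfold cG
  have h1 := R0_le' i hx.le
  have h0 := R0_gt
  gcongr

lemma deriv_le_pow (i : ℕ × Fin 2) {x : ℂ} (hx : x ∈ Metric.ball (0 : ℂ) R0) :
    ‖deriv (famG seqD 2 i) x‖ ≤ (1 / 100 ^ i.1) ^ 2 := by
  rcases Nat.eq_zero_or_pos i.1 with h | h
  · rw [h]
    refine (deriv_le_one i hx).trans ?_
    have := cG_lt
    norm_num; linarith
  · rw [mem_ball_zero_iff] at hx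
    rw [norm_deriv_famG i hx.le]
    have h1 := R0_le i hx.le
    obtain ⟨m, hm⟩ : ∃ m, i.1 = m + 1 := ⟨i.1 - 1, by omega⟩
    rw [hm, seqD_succ] at h1
    rw [hm]
    have hR : R0 ≤ 2 := by unfold R0; norm_num
    have h2 : (1 : ℝ) ≤ 100 ^ m := one_le_pow₀ (by norm_num)
    have h3 : (100 : ℝ) ^ (m + 1) ≤ ‖x + (rp i : ℂ)‖ := by
      refine le_trans ?_ h1
      rw [pow_add, pow_add]
      linarith
    rw [div_pow, one_pow]
    gcongr

lemma Tr_le {t C : ℝ} (u : ℕ → ℝ) (hu0 : ∀ n, 0 ≤ u n)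
    (hu : ∀ i, ∀ x ∈ Metric.ball (0 : ℂ) R0, ‖deriv (famG seqD 2 i) x‖ₑ ^ t ≤ ENNReal.ofReal (u i.1))
    (hs : HasSum u C) {a : ℝ≥0∞} {f : ℂ → ℝ≥0∞} (hf : ∀ x ∈ Metric.ball (0 : ℂ) R0, f x ≤ a) :
    ∀ x ∈ Metric.ball (0 : ℂ) R0, Tr t f x ≤ ENNReal.ofReal (2 * C) * a := by
  intro x hx
  unfold Tr
  calc ∑' i : ℕ × Fin 2, ‖deriv (famG seqD 2 i) x‖ₑ ^ t * f (famG seqD 2 i x) ≤
      ∑' i : ℕ × Fin 2, ENNReal.ofReal (u i.1) * a := by
        apply ENNReal.tsum_le_tsum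
        intro i
        gcongr
        · exact hu i x hx
        · exact hf _ (famG_mapsTo i hx)
    _ = ENNReal.ofReal (2 * C) * a := by
        rw [ENNReal.tsum_mul_right, ENNReal.tsum_prod']
        simp only [tsum_fintype, Finset.sum_const, Finset.card_univ, Fintype.card_fin]
        simp_rw [nsmul_eq_mul]
        rw [ENNReal.tsum_mul_left, ← ENNReal.ofReal_tsum_of_nonneg hu0 hs.summable, hs.tsum_eq]
        have : ((2 : ℕ) : ℝ≥0∞) = ENNReal.ofReal 2 := by simp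
        rw [this, ← ENNReal.ofReal_mul (by norm_num)]

lemma lam_le {t C : ℝ} (ht : 0 ≤ t) (u : ℕ → ℝ) (hu0 : ∀ n, 0 ≤ u n)
    (hu : ∀ i, ∀ x ∈ Metric.ball (0 : ℂ) R0, ‖deriv (famG seqD 2 i) x‖ₑ ^ t ≤ ENNReal.ofReal (u i.1))
    (hs : HasSum u C) (N : ℕ) : ∀ x ∈ Metric.ball (0 : ℂ) R0, lam N t x ≤ ENNReal.ofReal (2 * C) ^ N := by
  have key : ∀ x ∈ Metric.ball (0 : ℂ) R0, (Tr t)^[N] (fun _ => 1) x ≤ ENNReal.ofReal (2 * C) ^ N := by
    induction N with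
    | zero => intro x _; simp
    | succ N ih =>
      intro x hx
      rw [Function.iterate_succ_apply', pow_succ']
      exact Tr_le u hu0 hu hs ih x hx
  intro x hx
  rw [lam_eq ht N hx]
  exact key x hx

lemma enorm_rpow_le {a b t : ℝ} {z : ℂ} (ht : 0 ≤ t) (h : ‖z‖ ≤ a) (hb : a ^ t ≤ b) (ha : 0 ≤ a) :
    ‖z‖ₑ ^ t ≤ ENNReal.ofReal b := by
  rw [← ofReal_norm]
  calc ENNReal.ofReal ‖z‖ ^ t ≤ ENNReal.ofReal a ^ t := by gcongr
    _ = ENNReal.ofReal (a ^ t) := by rw [ENNReal.ofReal_rpow_of_nonneg ha ht]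
    _ ≤ ENNReal.ofReal b := ENNReal.ofReal_le_ofReal hb

lemma sum_quarter : HasSum (fun n : ℕ => (1 / 10 : ℝ) ^ n) (10 / 9) := by
  have := hasSum_geometric_of_lt_one (r := (1 / 10 : ℝ)) (by norm_num) (by norm_num)
  convert this using 1
  norm_num

lemma lam_quarter_ne_top (N : ℕ) : ∀ x ∈ Metric.ball (0 : ℂ) R0, lam N (1 / 4) x ≠ ⊤ := by
  intro x hx
  refine ne_top_of_le_ne_top ?_ (lam_le (t := 1 / 4) (C := 10 / 9) (by norm_num)
    (fun n : ℕ => (1 / 10 : ℝ) ^ n) (fun n => by positivity) ?_ sum_quarter N x hx)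
  · exact ENNReal.pow_ne_top ENNReal.ofReal_ne_top
  · intro i x hx
    refine enorm_rpow_le (by norm_num) (deriv_le_pow i hx) ?_ (by positivity)
    rw [← Real.rpow_natCast, ← Real.rpow_mul (by positivity)]
    have : ((2 : ℕ) : ℝ) * (1 / 4) = 1 / 2 := by norm_num
    rw [this, ← Real.sqrt_eq_rpow]
    have h100 : (1 / 100 ^ i.1 : ℝ) = ((1 / 10) ^ i.1) ^ 2 := by
      rw [← pow_mul, mul_comm, pow_mul, ← one_div_pow]
      norm_num
    rw [h100, Real.sqrt_sq (by positivity)]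

/-- the large exponent -/
noncomputable def T2 : ℝ := 10 ^ 7

/-- bounds for `t = 10 ^ 7` -/
noncomputable def uT (n : ℕ) : ℝ := if n = 0 then 1 / 11 else 1 / 100 ^ n

lemma sum_uT : HasSum uT (1 / 11 + 1 / 99) := by
  have h : HasSum (fun n : ℕ => (1 / 100 : ℝ) * (1 / 100) ^ n) ((1 / 100) * (1 - 1 / 100)⁻¹) :=
    (hasSum_geometric_of_lt_one (by norm_num) (by norm_num)).mul_left _
  have h2 : HasSum (fun n : ℕ => uT (n + 1)) (1 / 99) := by
    convert h using 1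
    · funext n
      simp only [uT, Nat.succ_ne_zero, if_false]
      rw [← pow_succ', one_div_pow]
    · norm_num
  have h3 := (hasSum_nat_add_iff (f := uT) 1).mp h2
  have e : (1 / 99 : ℝ) + ∑ i ∈ Finset.range 1, uT i = 1 / 11 + 1 / 99 := by
    rw [Finset.sum_range_one]
    simp only [uT, if_true]
    ring
  rw [e] at h3
  exact h3

lemma cG_pow : cG ^ T2 ≤ 1 / 11 := by
  unfold T2
  have h1 : cG ^ ((10 : ℝ) ^ 7) = cG ^ (10 ^ 7 : ℕ) := by
    rw [← Real.rpow_natCast]; norm_num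
  rw [h1]
  unfold cG
  rw [div_pow, one_pow, ← pow_mul]
  apply one_div_le_one_div_of_le (by norm_num)
  have := one_add_mul_le_pow (a := (1 / (2 * 10 ^ 6) : ℝ)) (by norm_num) (2 * 10 ^ 7)
  unfold R0
  refine le_trans ?_ this
  norm_num

lemma lam_T2_le (N : ℕ) : lam N T2 0 ≤ ENNReal.ofReal (20 / 99) ^ N := by
  have hT : (0 : ℝ) ≤ T2 := by unfold T2; norm_num
  have h := lam_le (t := T2) hT uT (fun n => by unfold uT; split <;> positivity) ?_ sum_uT N 0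
    zero_mem_ball
  · convert h using 3
    norm_num
  · intro i x hx
    rcases Nat.eq_zero_or_pos i.1 with h | h
    · refine enorm_rpow_le hT (deriv_le_one i hx) ?_ cG_pos.le
      simp only [uT, h, if_true]
      exact cG_pow
    · refine enorm_rpow_le hT (deriv_le_pow i hx) ?_ (by positivity)
      have hne : i.1 ≠ 0 := by omega
      simp only [uT, hne, if_false]
      have h1 : (1 / 100 ^ i.1 : ℝ) ≤ 1 := by
        rw [div_le_one (by positivity)]; exact one_le_pow₀ (by norm_num)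
      calc ((1 / 100 ^ i.1 : ℝ) ^ 2) ^ T2 ≤ ((1 / 100 ^ i.1 : ℝ) ^ 2) ^ (1 : ℝ) :=
            Real.rpow_le_rpow_of_exponent_ge (by positivity) (pow_le_one₀ (by positivity) h1)
              (by unfold T2; norm_num)
        _ = (1 / 100 ^ i.1 : ℝ) ^ 2 := Real.rpow_one _
        _ ≤ 1 / 100 ^ i.1 := by
            have : (0 : ℝ) < 1 / 100 ^ i.1 := by positivity
            nlinarith

/-! ### lower bound at `1/4` -/

lemma Tr_ge {f : ℂ → ℝ≥0∞} (hf : ∀ x ∈ Metric.closedBall (0 : ℂ) 1, 1 ≤ f x) :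
    ∀ x ∈ Metric.closedBall (0 : ℂ) 1, 1 ≤ Tr (1 / 4) f x := by
  intro x hx
  have hx' := mem_closedBall_zero_iff.mp hx
  have hb : ∀ j : Fin 2, (1 / 2 : ℝ≥0∞) ≤ ‖deriv (famG seqD 2 (0, j)) x‖ₑ ^ (1 / 4 : ℝ) *
      f (famG seqD 2 (0, j) x) := by
    intro j
    have h1 : 1 ≤ f (famG seqD 2 (0, j) x) := hf _ (isCIFS_G.mapsTo (0, j) hx)
    have h2 : (1 / 2 : ℝ≥0∞) ≤ ‖deriv (famG seqD 2 (0, j)) x‖ₑ ^ (1 / 4 : ℝ) := by
      rw [← ofReal_norm, ENNReal.ofReal_rpow_of_nonneg (norm_nonneg _) (by norm_num)]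
      have h3 : (1 / 16 : ℝ) ≤ ‖deriv (famG seqD 2 (0, j)) x‖ := by
        rw [norm_deriv_famG _ (hx'.trans R0_gt.le)]
        have h4 : ‖x + (rp (0, j) : ℂ)‖ ≤ 4 := by
          refine (norm_add_le _ _).trans ?_
          rw [Complex.norm_real, Real.norm_eq_abs, abs_rp, seqD_zero]
          norm_num at *
          linarith
        have h5 := R0_le' (0, j) (hx'.trans R0_gt.le)
        have h6 := R0_gt
        rw [div_le_div_iff₀ (by norm_num) (by nlinarith)]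
        nlinarith
      calc (1 / 2 : ℝ≥0∞) = ENNReal.ofReal (1 / 2) := by
            rw [ENNReal.ofReal_div_of_pos (by norm_num)]; simp
        _ ≤ ENNReal.ofReal (‖deriv (famG seqD 2 (0, j)) x‖ ^ (1 / 4 : ℝ)) := by
            apply ENNReal.ofReal_le_ofReal
            have h7 : (1 / 2 : ℝ) = (1 / 16) ^ (1 / 4 : ℝ) := by
              have : (1 / 16 : ℝ) = (1 / 2) ^ (4 : ℝ) := by norm_num
              rw [this, ← Real.rpow_mul (by norm_num)]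
              norm_num
            rw [h7]
            gcongr
    calc (1 / 2 : ℝ≥0∞) = (1 / 2) * 1 := by simp
      _ ≤ _ := by gcongr
  unfold Tr
  calc (1 : ℝ≥0∞) = 1 / 2 + 1 / 2 := by rw [ENNReal.add_halves]
    _ ≤ ∑' j : Fin 2, ‖deriv (famG seqD 2 (0, j)) x‖ₑ ^ (1 / 4 : ℝ) *
      f (famG seqD 2 (0, j) x) := by
        rw [tsum_fintype, Fin.sum_univ_two]
        exact add_le_add (hb 0) (hb 1)
    _ ≤ ∑' n : ℕ, ∑' j : Fin 2, ‖deriv (famG seqD 2 (n, j)) x‖ₑ ^ (1 / 4 : ℝ) *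
      f (famG seqD 2 (n, j) x) := ENNReal.le_tsum (f := fun n : ℕ =>
        ∑' j : Fin 2, ‖deriv (famG seqD 2 (n, j)) x‖ₑ ^ (1 / 4 : ℝ) * f (famG seqD 2 (n, j) x)) 0
    _ = _ := (ENNReal.tsum_prod' (f := fun i : ℕ × Fin 2 =>
        ‖deriv (famG seqD 2 i) x‖ₑ ^ (1 / 4 : ℝ) * f (famG seqD 2 i x))).symm

lemma lam_quarter_ge (N : ℕ) : 1 ≤ lam N (1 / 4) 0 := by
  rw [lam_eq (by norm_num) N zero_mem_ball]
  have : ∀ x ∈ Metric.closedBall (0 : ℂ) 1, 1 ≤ (Tr (1 / 4))^[N] (fun _ => 1) x := by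
    induction N with
    | zero => intro x _; simp
    | succ N ih =>
      intro x hx
      rw [Function.iterate_succ_apply']
      exact Tr_ge ih x hx
  exact this 0 (by simp)

end Pool.Agent.W_MP_c785a0_an
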